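import Mathlib

/-!
# A no-retraction theorem

Every continuous self-map of a finite-dimensional real inner product space which is the
identity outside the open unit ball has a zero.  The proof is the analytic one
(volume of the image of `id + t u` is a polynomial in `t`).
-/

open MeasureTheory Set Metric Filter Topology
open scoped NNReal ENNReal

namespace Pool.Agent.Work.MP_bc4532_gt

/-- A bounded-degree polynomial is recovered at `1` from its values at finitely many
nodes in `(0, ε)`, with universal coefficients of sum `1`. -/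
theorem exists_interpolation (n : ℕ) {ε : ℝ} (hε : 0 < ε) :
    ∃ (t : Fin (n + 1) → ℝ) (c : Fin (n + 1) → ℝ), (∀ i, 0 < t i ∧ t i < ε) ∧ ∑ i, c i = 1 ∧
      ∀ p : Polynomial ℝ, p.natDegree ≤ n → p.eval 1 = ∑ i, c i * p.eval (t i) := by
  classical
  set t : Fin (n + 1) → ℝ := fun i => ε * (((i : ℕ) : ℝ) + 1) / (n + 2) with ht
  have hinj : Function.Injective t := by
    intro i j hij
    have h2 : (0 : ℝ) < n + 2 := by positivity
    simp only [ht] at hij
    have h4 : (((i : ℕ) : ℝ) + 1) = (((j : ℕ) : ℝ) + 1) := by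
      field_simp at hij
      exact hij
    have h5 : (i : ℕ) = (j : ℕ) := by exact_mod_cast add_right_cancel h4
    exact Fin.ext h5
  refine ⟨t, fun i => (Lagrange.basis Finset.univ t i).eval 1, ?_, ?_, ?_⟩
  · intro i
    have h2 : (0 : ℝ) < n + 2 := by positivity
    have hi : ((i : ℕ) : ℝ) ≤ n := by exact_mod_cast Nat.lt_succ_iff.mp i.2
    constructor
    · simp only [ht]; positivity
    · simp only [ht]
      rw [div_lt_iff₀ h2]
      nlinarith
  · have := Lagrange.sum_basis (s := (Finset.univ : Finset (Fin (n + 1)))) (v := t)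
      hinj.injOn ⟨0, Finset.mem_univ _⟩
    rw [← Polynomial.eval_finsetSum, this, Polynomial.eval_one]
  · intro p hp
    have hdeg : p.degree < (Finset.univ : Finset (Fin (n + 1))).card := by
      rw [Finset.card_univ, Fintype.card_fin]
      refine lt_of_le_of_lt Polynomial.degree_le_natDegree ?_
      exact_mod_cast Nat.lt_succ_of_le hp
    have h := Lagrange.eq_interpolate (s := (Finset.univ : Finset (Fin (n + 1)))) (v := t)
      hinj.injOn hdeg
    conv_lhs => rw [h]
    rw [Lagrange.interpolate_apply, Polynomial.eval_finsetSum]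
    refine Finset.sum_congr rfl fun i _ => ?_
    rw [Polynomial.eval_mul, Polynomial.eval_C]
    ring

variable {E : Type*} [NormedAddCommGroup E] [InnerProductSpace ℝ E] [FiniteDimensional ℝ E]

/-- `t ↦ det (1 + t A)` is a polynomial in `t` of degree at most the dimension. -/
theorem exists_poly_det (A : E →L[ℝ] E) :
    ∃ p : Polynomial ℝ, p.natDegree ≤ Module.finrank ℝ E ∧
      ∀ t : ℝ, p.eval t = (ContinuousLinearMap.id ℝ E + t • A).det := by
  classical
  let b := Module.finBasis ℝ E
  let M := LinearMap.toMatrix b b (A : E →ₗ[ℝ] E)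
  refine ⟨Matrix.det ((Polynomial.X : Polynomial ℝ) • M.map Polynomial.C +
    (1 : Matrix _ _ ℝ).map Polynomial.C), ?_, ?_⟩
  · have := Polynomial.natDegree_det_X_add_C_le M (1 : Matrix _ _ ℝ)
    simpa using this
  · intro t
    have h1 : (ContinuousLinearMap.id ℝ E + t • A).det
        = LinearMap.det ((ContinuousLinearMap.id ℝ E + t • A : E →L[ℝ] E) : E →ₗ[ℝ] E) := rfl
    rw [h1, ← LinearMap.det_toMatrix b]
    rw [← Polynomial.coe_evalRingHom, RingHom.map_det]
    congr 1
    have h2 : ((ContinuousLinearMap.id ℝ E + t • A : E →L[ℝ] E) : E →ₗ[ℝ] E)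
        = LinearMap.id + t • (A : E →ₗ[ℝ] E) := rfl
    have h3 : LinearMap.toMatrix b b (LinearMap.id + t • (A : E →ₗ[ℝ] E)) = 1 + t • M := by
      rw [map_add, map_smul, LinearMap.toMatrix_id]
    rw [h2, h3]
    ext i j
    by_cases hij : i = j
    · subst hij
      simp
      ring
    · simp [hij]
      ring

/-- If `‖A‖ ≤ K` and `t K < 1` then `det (1 + t A) > 0`. -/
theorem det_pos_of_small (A : E →L[ℝ] E) {K t : ℝ} (hK : ‖A‖ ≤ K) (ht : 0 ≤ t)
    (htK : t * K < 1) : 0 < (ContinuousLinearMap.id ℝ E + t • A).det := by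
  -- nonvanishing along the segment
  have hne : ∀ s ∈ Set.Icc (0 : ℝ) t, (ContinuousLinearMap.id ℝ E + s • A).det ≠ 0 := by
    intro s hs h0
    have h1 : LinearMap.det ((ContinuousLinearMap.id ℝ E + s • A : E →L[ℝ] E) : E →ₗ[ℝ] E) = 0 :=
      h0
    have h2 := LinearMap.bot_lt_ker_of_det_eq_zero h1
    obtain ⟨v, hv, hv0⟩ := (Submodule.ne_bot_iff _).mp h2.ne'
    have h3 : v + s • A v = 0 := by
      simpa using hv
    have h4 : ‖v‖ = s * ‖A v‖ := by
      have : v = -(s • A v) := eq_neg_of_add_eq_zero_left h3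
      calc ‖v‖ = ‖-(s • A v)‖ := by rw [← this]
        _ = s * ‖A v‖ := by rw [norm_neg, norm_smul, Real.norm_of_nonneg hs.1]
    have h5 : ‖A v‖ ≤ K * ‖v‖ := (A.le_opNorm v).trans (by gcongr)
    have h6 : 0 < ‖v‖ := norm_pos_iff.mpr hv0
    have hK0 : 0 ≤ K := (norm_nonneg A).trans hK
    have h7 : s * ‖A v‖ ≤ t * (K * ‖v‖) := by
      have := hs.2
      have h8 : 0 ≤ ‖A v‖ := norm_nonneg _
      calc s * ‖A v‖ ≤ t * ‖A v‖ := by gcongr
        _ ≤ t * (K * ‖v‖) := by gcongr
    nlinarith
  -- continuity
  obtain ⟨p, -, hp⟩ := exists_poly_det A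
  have hcont : Continuous fun s : ℝ => (ContinuousLinearMap.id ℝ E + s • A).det := by
    have : (fun s : ℝ => (ContinuousLinearMap.id ℝ E + s • A).det) = fun s => p.eval s := by
      funext s; exact (hp s).symm
    rw [this]
    exact p.continuous
  have h0 : (ContinuousLinearMap.id ℝ E + (0 : ℝ) • A).det = 1 := by
    have : (ContinuousLinearMap.id ℝ E + (0 : ℝ) • A) = ContinuousLinearMap.id ℝ E := by simp
    rw [this]
    exact LinearMap.det_id
  by_contra hcon
  push Not at hcon
  have hmem : (0 : ℝ) ∈ (fun s : ℝ => (ContinuousLinearMap.id ℝ E + s • A).det) '' Set.Icc 0 t := by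
    apply intermediate_value_Icc' ht hcont.continuousOn
    exact ⟨hcon, by rw [h0]; exact zero_le_one⟩
  obtain ⟨s, hs, hs0⟩ := hmem
  exact hne s hs hs0


/-- Perturbing the identity by a small Lipschitz map which vanishes outside the ball gives a
bijection of the ball. -/
theorem image_ball_eq {u : E → E} {K t R : ℝ} (hu : ∀ x y, ‖u x - u y‖ ≤ K * ‖x - y‖)
    (hu0 : ∀ x, R ≤ ‖x‖ → u x = 0) (hK : 0 ≤ K) (ht : 0 ≤ t) (htK : t * K < 1) :
    InjOn (fun x => x + t • u x) univ ∧
      (fun x => x + t • u x) '' (ball 0 R) = ball 0 R := by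
  classical
  set f : E → E := fun x => x + t • u x with hf
  have hinj : Function.Injective f := by
    intro x y hxy
    by_contra hne
    have h1 : x - y = -(t • (u x - u y)) := by
      have : x + t • u x = y + t • u y := hxy
      rw [smul_sub]
      have h2 : x - y = t • u y - t • u x := by
        rw [sub_eq_sub_iff_add_eq_add]
        rw [this]; abel
      rw [h2]; abel
    have h2 : ‖x - y‖ ≤ t * (K * ‖x - y‖) := by
      calc ‖x - y‖ = ‖-(t • (u x - u y))‖ := by rw [← h1]
        _ = t * ‖u x - u y‖ := by rw [norm_neg, norm_smul, Real.norm_of_nonneg ht]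
        _ ≤ t * (K * ‖x - y‖) := by gcongr; exact hu x y
    have h3 : 0 < ‖x - y‖ := norm_pos_iff.mpr (sub_ne_zero.mpr hne)
    nlinarith
  have hsurj : Function.Surjective f := by
    have hA : ApproximatesLinearOn f
        ((ContinuousLinearEquiv.refl ℝ E : E ≃L[ℝ] E) : E →L[ℝ] E) univ
        (Real.toNNReal (t * K)) := by
      intro x _ y _
      have h1 : f x - f y - ((ContinuousLinearEquiv.refl ℝ E : E ≃L[ℝ] E) : E →L[ℝ] E) (x - y)
          = t • (u x - u y) := by
        simp only [hf, ContinuousLinearEquiv.coe_refl, ContinuousLinearMap.coe_id', id]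
        rw [smul_sub]; abel
      rw [h1, norm_smul, Real.norm_of_nonneg ht]
      have := hu x y
      rw [Real.coe_toNNReal _ (mul_nonneg ht hK)]
      calc t * ‖u x - u y‖ ≤ t * (K * ‖x - y‖) := by gcongr
        _ = _ := by ring
    apply hA.surjective
    rcases subsingleton_or_nontrivial E with hE | hE
    · left; exact hE
    · right
      have : ‖((ContinuousLinearEquiv.refl ℝ E : E ≃L[ℝ] E).symm : E →L[ℝ] E)‖₊ = 1 := by
        simp
      rw [this, inv_one, ← NNReal.coe_lt_coe, Real.coe_toNNReal _ (mul_nonneg ht hK)]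
      simpa using htK
  refine ⟨hinj.injOn, ?_⟩
  have hout : ∀ x, R ≤ ‖x‖ → f x = x := by
    intro x hx; simp [hf, hu0 x hx]
  ext y
  simp only [mem_image, mem_ball_zero_iff]
  constructor
  · rintro ⟨x, hx, rfl⟩
    by_contra hcon
    push Not at hcon
    have h1 : f (f x) = f x := hout _ hcon
    have h2 : f x = x := hinj h1
    rw [h2] at hcon
    linarith
  · intro hy
    obtain ⟨x, rfl⟩ := hsurj y
    refine ⟨x, ?_, rfl⟩
    by_contra hcon
    push Not at hcon
    rw [hout x hcon] at hy
    linarith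

/-- There is no `C¹` map with values on the sphere of radius `R` restricting to the identity
there. -/
theorem no_smooth_retraction {h : E → E} (hh : ContDiff ℝ 1 h) {R : ℝ} (hR : 0 < R)
    (hn : ∀ x, ‖h x‖ = R) (hid : ∀ x, ‖x‖ = R → h x = x) : False := by
  classical
  let _ : MeasurableSpace E := borel E
  have _ : BorelSpace E := ⟨rfl⟩
  set μ : Measure E := MeasureTheory.Measure.addHaar with hμ
  set g : E → E := fun x => h x - x with hg
  have hgd : ContDiff ℝ 1 g := hh.sub contDiff_id
  have hgc : Continuous (fderiv ℝ g) := hgd.continuous_fderiv one_ne_zero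
  obtain ⟨K0, hK0⟩ : ∃ K : ℝ, ∀ x ∈ closedBall (0 : E) R, ‖fderiv ℝ g x‖ ≤ K :=
    IsCompact.exists_bound_of_continuousOn (isCompact_closedBall 0 R) hgc.continuousOn
  set K : ℝ := max K0 0 with hKdef
  have hK00 : 0 ≤ K := le_max_right _ _
  have hK : ∀ x ∈ closedBall (0 : E) R, ‖fderiv ℝ g x‖ ≤ K :=
    fun x hx => (hK0 x hx).trans (le_max_left _ _)
  have hgLip : ∀ x ∈ closedBall (0 : E) R, ∀ y ∈ closedBall (0 : E) R,
      ‖g x - g y‖ ≤ K * ‖x - y‖ := by
    intro x hx y hy
    have := (convex_closedBall (0 : E) R).norm_image_sub_le_of_norm_fderiv_le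
      (f := g) (C := K) (fun z _ => (hgd.differentiable one_ne_zero) z) hK hy hx
    exact this
  have hgS : ∀ x, ‖x‖ = R → g x = 0 := by
    intro x hx; simp [hg, hid x hx]
  set u : E → E := fun x => if ‖x‖ < R then g x else 0 with hu
  have hu_in : ∀ x, ‖x‖ ≤ R → u x = g x := by
    intro x hx
    rcases hx.lt_or_eq with h1 | h1
    · simp [hu, h1]
    · simp [hu, h1, hgS x h1]
  have hu_out : ∀ x, R ≤ ‖x‖ → u x = 0 := by
    intro x hx; simp [hu, not_lt.mpr hx]
  -- crossing the sphere
  have hcross : ∀ x y, ‖x‖ ≤ R → R ≤ ‖y‖ → ‖u x - u y‖ ≤ K * ‖x - y‖ := by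
    intro x y hx hy
    have hc : Continuous fun s : ℝ => ‖x + s • (y - x)‖ := by fun_prop
    have hmem : R ∈ (fun s : ℝ => ‖x + s • (y - x)‖) '' Icc 0 1 := by
      apply intermediate_value_Icc zero_le_one hc.continuousOn
      refine ⟨?_, ?_⟩
      · simpa using hx
      · simpa using hy
    obtain ⟨s, hs, hsR⟩ := hmem
    set z := x + s • (y - x) with hz
    have hzR : ‖z‖ = R := hsR
    have h1 : u x - u y = g x - g z := by
      rw [hu_in x hx, hu_out y hy, hgS z hzR]
    rw [h1]
    have h2 := hgLip x (by simpa using hx) z (by simpa using hzR.le)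
    refine h2.trans ?_
    have h3 : ‖x - z‖ ≤ ‖x - y‖ := by
      have : x - z = s • (x - y) := by rw [hz, smul_sub, smul_sub]; abel
      rw [this, norm_smul, Real.norm_of_nonneg hs.1]
      have := norm_nonneg (x - y)
      nlinarith [hs.2]
    gcongr
  have huLip : ∀ x y, ‖u x - u y‖ ≤ K * ‖x - y‖ := by
    intro x y
    rcases le_total ‖x‖ R with hx | hx
    · rcases le_total ‖y‖ R with hy | hy
      · rw [hu_in x hx, hu_in y hy]
        exact hgLip x (by simpa using hx) y (by simpa using hy)
      · exact hcross x y hx hy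
    · rcases le_total ‖y‖ R with hy | hy
      · have := hcross y x hy hx
        rwa [norm_sub_rev, norm_sub_rev y x] at this
      · rw [hu_out x hx, hu_out y hy]
        simp; positivity
  -- the volume identity for small t
  have hvol : ∀ t : ℝ, 0 ≤ t → t * K < 1 →
      ∫ x in ball (0 : E) R, (ContinuousLinearMap.id ℝ E + t • fderiv ℝ g x).det ∂μ
        = μ.real (ball (0 : E) R) := by
    intro t ht htK
    obtain ⟨hinj, himg⟩ := image_ball_eq huLip hu_out hK00 ht htK
    have hder : ∀ x ∈ ball (0 : E) R, HasFDerivWithinAt (fun x => x + t • u x)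
        (ContinuousLinearMap.id ℝ E + t • fderiv ℝ g x) (ball 0 R) x := by
      intro x hx
      have h1 : HasFDerivAt (fun x => x + t • g x)
          (ContinuousLinearMap.id ℝ E + t • fderiv ℝ g x) x := by
        have := ((hgd.differentiable one_ne_zero) x).hasFDerivAt
        exact (hasFDerivAt_id x).add (this.const_smul t)
      refine h1.hasFDerivWithinAt.congr ?_ ?_
      · intro y hy
        simp only [mem_ball_zero_iff] at hy
        simp only [hu_in y hy.le]
      · simp only [mem_ball_zero_iff] at hx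
        simp only [hu_in x hx.le]
    have h1 := lintegral_abs_det_fderiv_eq_addHaar_image μ measurableSet_ball hder
      (hinj.mono (subset_univ _))
    rw [himg] at h1
    have hpos : ∀ x ∈ ball (0 : E) R,
        0 < (ContinuousLinearMap.id ℝ E + t • fderiv ℝ g x).det := by
      intro x hx
      exact det_pos_of_small _ (hK x (ball_subset_closedBall hx)) ht htK
    have hcont : Continuous fun x => (ContinuousLinearMap.id ℝ E + t • fderiv ℝ g x).det :=
      ContinuousLinearMap.continuous_det.comp (continuous_const.add (hgc.const_smul t))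
    rw [integral_eq_lintegral_of_nonneg_ae]
    · rw [Measure.real, ← h1]
      congr 1
      refine setLIntegral_congr_fun measurableSet_ball ?_
      intro x hx
      simp only
      rw [abs_of_pos (hpos x hx)]
    · filter_upwards [ae_restrict_mem measurableSet_ball] with x hx
      exact (hpos x hx).le
    · exact hcont.aestronglyMeasurable
  -- interpolation
  set ε : ℝ := 1 / (K + 1) with hε
  have hεpos : 0 < ε := by positivity
  obtain ⟨t, c, ht, hc, hpoly⟩ := exists_interpolation (Module.finrank ℝ E) hεpos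
  have hsmall : ∀ i, t i * K < 1 := by
    intro i
    have h1 := (ht i).2
    rw [hε, lt_div_iff₀ (by positivity)] at h1
    nlinarith [(ht i).1]
  have hcont : ∀ t : ℝ, Continuous fun x => (ContinuousLinearMap.id ℝ E + t • fderiv ℝ g x).det :=
    fun t => ContinuousLinearMap.continuous_det.comp (continuous_const.add (hgc.const_smul t))
  have hint : ∀ t : ℝ, IntegrableOn
      (fun x => (ContinuousLinearMap.id ℝ E + t • fderiv ℝ g x).det) (ball (0 : E) R) μ := by
    intro t
    exact ((hcont t).continuousOn.integrableOn_compact (isCompact_closedBall 0 R)).mono_set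
      ball_subset_closedBall
  have hone : ∫ x in ball (0 : E) R,
      (ContinuousLinearMap.id ℝ E + (1 : ℝ) • fderiv ℝ g x).det ∂μ = μ.real (ball (0 : E) R) := by
    have hpt : ∀ x, (ContinuousLinearMap.id ℝ E + (1 : ℝ) • fderiv ℝ g x).det
        = ∑ i, c i * (ContinuousLinearMap.id ℝ E + t i • fderiv ℝ g x).det := by
      intro x
      obtain ⟨p, hp, hpe⟩ := exists_poly_det (fderiv ℝ g x)
      rw [← hpe 1, hpoly p hp]
      refine Finset.sum_congr rfl fun i _ => ?_
      rw [hpe]
    simp_rw [hpt]
    rw [integral_finsetSum _ fun i _ => (hint (t i)).const_mul (c i)]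
    have : ∀ i, ∫ x in ball (0 : E) R, c i * (ContinuousLinearMap.id ℝ E +
        t i • fderiv ℝ g x).det ∂μ = c i * μ.real (ball (0 : E) R) := by
      intro i
      rw [integral_const_mul, hvol (t i) (ht i).1.le (hsmall i)]
    simp_rw [this]
    rw [← Finset.sum_mul, hc, one_mul]
  -- but the determinant vanishes
  have hdet0 : ∀ x, (ContinuousLinearMap.id ℝ E + (1 : ℝ) • fderiv ℝ g x).det = 0 := by
    intro x
    have hgx : fderiv ℝ g x = fderiv ℝ h x - ContinuousLinearMap.id ℝ E := by
      have h1 : HasFDerivAt g (fderiv ℝ h x - ContinuousLinearMap.id ℝ E) x :=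
        ((hh.differentiable one_ne_zero) x).hasFDerivAt.sub (hasFDerivAt_id x)
      exact h1.fderiv
    have h2 : ContinuousLinearMap.id ℝ E + (1 : ℝ) • fderiv ℝ g x = fderiv ℝ h x := by
      rw [hgx, one_smul]; abel
    rw [h2]
    -- inner (h x) (fderiv h x v) = 0
    have h3 : ∀ v, inner ℝ (h x) (fderiv ℝ h x v) = 0 := by
      intro v
      have hd : HasFDerivAt h (fderiv ℝ h x) x := ((hh.differentiable one_ne_zero) x).hasFDerivAt
      have h4 := hd.inner ℝ hd
      have h5 : (fun y => inner ℝ (h y) (h y)) = fun _ : E => R ^ 2 := by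
        funext y
        rw [real_inner_self_eq_norm_sq, hn y]
      rw [h5] at h4
      have h6 := h4.unique (hasFDerivAt_const (R ^ 2) x)
      have h7 := congrArg (fun L : E →L[ℝ] ℝ => L v) h6
      simp [fderivInnerCLM_apply, real_inner_comm] at h7
      linarith
    by_contra hne
    have h8 : Function.Surjective (fderiv ℝ h x) := by
      have hu : IsUnit (LinearMap.det ((fderiv ℝ h x : E →L[ℝ] E) : E →ₗ[ℝ] E)) :=
        isUnit_iff_ne_zero.mpr hne
      let e := LinearEquiv.ofIsUnitDet (f := ((fderiv ℝ h x : E →L[ℝ] E) : E →ₗ[ℝ] E))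
        (v := Module.finBasis ℝ E) (v' := Module.finBasis ℝ E)
        (by rwa [LinearMap.det_toMatrix])
      intro y
      obtain ⟨z, hz⟩ := e.surjective y
      exact ⟨z, hz⟩
    obtain ⟨v, hv⟩ := h8 (h x)
    have h9 := h3 v
    rw [hv, real_inner_self_eq_norm_sq, hn x] at h9
    have : (0 : ℝ) < R ^ 2 := by positivity
    linarith
  simp_rw [hdet0] at hone
  rw [integral_zero] at hone
  have hpos : 0 < μ.real (ball (0 : E) R) := by
    rw [Measure.real]
    exact ENNReal.toReal_pos (measure_ball_pos μ 0 hR).ne' measure_ball_lt_top.ne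
  linarith

/-- A continuous self-map which is the identity outside the unit ball has a zero. -/
theorem exists_zero_of_id_outside {F : E → E} (hF : Continuous F)
    (hid : ∀ x, 1 ≤ ‖x‖ → F x = x) : ∃ x, F x = 0 := by
  by_contra hcon
  push Not at hcon
  have hU : {x : E | 1 < ‖x‖} ∈ 𝓝ˢ {x : E | 2 ≤ ‖x‖} := by
    rw [(isOpen_lt continuous_const continuous_norm).mem_nhdsSet]
    intro x hx
    simp only [mem_ofPred_eq] at hx ⊢
    linarith
  obtain ⟨G, hG, hGd, hGS, -⟩ := hF.exists_contDiff_approx_and_eqOn (n := 1)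
    (ε := fun x => ‖F x‖) hF.norm (fun x => norm_pos_iff.mpr (hcon x))
    (S := {x : E | 2 ≤ ‖x‖}) (U := {x : E | 1 < ‖x‖})
    (isClosed_le continuous_const continuous_norm) hU
    (contDiffOn_id.congr fun x hx => by simpa using hid x (le_of_lt hx))
  have hG0 : ∀ x, G x ≠ 0 := by
    intro x hx
    have := hGd x
    rw [hx, dist_zero_left] at this
    exact lt_irrefl _ this
  refine no_smooth_retraction (h := fun x => (2 / ‖G x‖) • G x) ?_ two_pos ?_ ?_
  · exact (contDiff_const.div (hG.norm ℝ hG0) fun x => (norm_pos_iff.mpr (hG0 x)).ne').smul hG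
  · intro x
    have : 0 < ‖G x‖ := norm_pos_iff.mpr (hG0 x)
    rw [norm_smul, Real.norm_of_nonneg (by positivity)]
    field_simp
  · intro x hx
    have h1 : G x = x := by
      rw [hGS (show x ∈ {x : E | 2 ≤ ‖x‖} from hx.ge)]
      exact hid x (by rw [hx]; norm_num)
    simp only [h1, hx]
    simp

end Pool.Agent.Work.MP_bc4532_gt
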