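import Mathlib

/-!
# Definition: closed Riemannian manifolds
-/

open Bundle Manifold
open scoped Manifold ContDiff

namespace Pool.Agent.Work.MP_bc4532_gt

/-- A closed Riemannian manifold: a compact connected smooth manifold without boundary, with a
smooth Riemannian metric, regarded as a metric space with its path-length distance.  All the
structure is Mathlib's; the last field says that the distance between two points is the infimum
of the lengths of the `C¹` paths joining them. -/
structure ClosedRiemannianManifold where
  /-- the model vector space -/
  E : Type
  [normedAddCommGroup : NormedAddCommGroup E]
  [normedSpace : NormedSpace ℝ E]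
  [finiteDimensional : FiniteDimensional ℝ E]
  /-- the model topological space -/
  H : Type
  [topologicalSpace : TopologicalSpace H]
  /-- the model with corners -/
  I : ModelWithCorners ℝ E H
  [boundaryless : I.Boundaryless]
  /-- the points of the manifold -/
  Pt : Type
  [metricSpace : MetricSpace Pt]
  [chartedSpace : ChartedSpace H Pt]
  [isManifold : IsManifold I ∞ Pt]
  [compactSpace : CompactSpace Pt]
  [connectedSpace : ConnectedSpace Pt]
  /-- the Riemannian metric -/
  [riemannianBundle : RiemannianBundle (fun x : Pt => TangentSpace I x)]
  [smoothMetric : IsContMDiffRiemannianBundle I ∞ E (fun x : Pt => TangentSpace I x)]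
  [isRiemannianManifold : IsRiemannianManifold I Pt]

attribute [instance] ClosedRiemannianManifold.normedAddCommGroup
  ClosedRiemannianManifold.normedSpace ClosedRiemannianManifold.finiteDimensional
  ClosedRiemannianManifold.topologicalSpace ClosedRiemannianManifold.boundaryless
  ClosedRiemannianManifold.metricSpace ClosedRiemannianManifold.chartedSpace
  ClosedRiemannianManifold.isManifold ClosedRiemannianManifold.compactSpace
  ClosedRiemannianManifold.connectedSpace ClosedRiemannianManifold.riemannianBundle
  ClosedRiemannianManifold.smoothMetric ClosedRiemannianManifold.isRiemannianManifold

end Pool.Agent.Work.MP_bc4532_gt
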