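import Pool.Agent.Work.MP_bc4532_gt.Pullback

/-!
# Distances for the Riemannian metric induced by an immersion
-/

open Bundle Topology Bornology Set MeasureTheory Manifold
open scoped Manifold ContDiff ENNReal

noncomputable section

namespace Pool.Agent.Work.MP_bc4532_gt

variable {E : Type*} [NormedAddCommGroup E] [NormedSpace ℝ E] [FiniteDimensional ℝ E]
  {H : Type*} [TopologicalSpace H] {I : ModelWithCorners ℝ E H}
  {M : Type*} [TopologicalSpace M] [ChartedSpace H M] [IsManifold I ∞ M]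
  {W : Type*} [NormedAddCommGroup W] [InnerProductSpace ℝ W]
  [RiemannianBundle (fun x : M => TangentSpace I x)]

/-- The Riemannian metric of `M` is the one induced by the map `F`. -/
def IsInduced (I : ModelWithCorners ℝ E H) [RiemannianBundle (fun x : M => TangentSpace I x)]
    (F : M → W) : Prop :=
  ∀ (x : M) (v : TangentSpace I x), ‖v‖ = ‖der I F x v‖

theorem enorm_mfderiv_eq {F : M → W} (hF : ContMDiff I 𝓘(ℝ, W) ∞ F) (hI : IsInduced I F)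
    {γ : ℝ → M} (hγ : ContMDiff 𝓘(ℝ) I 1 γ) (t : ℝ) :
    ‖mfderiv 𝓘(ℝ) I γ t 1‖ₑ = ‖deriv (F ∘ γ) t‖ₑ := by
  have h1 : ‖mfderiv 𝓘(ℝ) I γ t 1‖ = ‖der I F (γ t) (mfderiv 𝓘(ℝ) I γ t 1)‖ := hI _ _
  have h2 : der I F (γ t) (mfderiv 𝓘(ℝ) I γ t 1) = deriv (F ∘ γ) t := by
    have h3 : mfderiv 𝓘(ℝ) 𝓘(ℝ, W) (F ∘ γ) t
        = (mfderiv I 𝓘(ℝ, W) F (γ t)).comp (mfderiv 𝓘(ℝ) I γ t) :=
      mfderiv_comp t ((hF.mdifferentiable (by simp)) (γ t)) ((hγ.mdifferentiable one_ne_zero) t)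
    have h4 : mfderiv 𝓘(ℝ) 𝓘(ℝ, W) (F ∘ γ) t 1 = deriv (F ∘ γ) t := by
      rw [mfderiv_eq_fderiv]
      rfl
    rw [← h4, h3]
    rfl
  rw [h2] at h1
  simp only [enorm, nnnorm, h1]

theorem pathELength_eq {F : M → W} (hF : ContMDiff I 𝓘(ℝ, W) ∞ F) (hI : IsInduced I F)
    {γ : ℝ → M} (hγ : ContMDiff 𝓘(ℝ) I 1 γ) (a b : ℝ) :
    pathELength I γ a b = ∫⁻ t in Icc a b, ‖deriv (F ∘ γ) t‖ₑ := by
  rw [pathELength_eq_lintegral_mfderiv_Icc]
  simp_rw [enorm_mfderiv_eq hF hI hγ]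

end Pool.Agent.Work.MP_bc4532_gt
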