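import Mathlib

/-!
# A calibration lemma for lengths of curves
-/

open Topology Set MeasureTheory Filter
open scoped ContDiff ENNReal

noncomputable section

namespace Pool.Agent.Work.MP_bc4532_gt

variable {W : Type*} [NormedAddCommGroup W] [NormedSpace ℝ W]

/-- If `u` decreases from `1` to `0` along a curve `c` and satisfies the differential inequality
`u'² ≤ u (1 - u) (K |c'|)²`, then `K` times the length of `c` is at least `π`. -/
theorem calibration_aux {u : ℝ → ℝ} (hu : ContDiff ℝ 1 u) {c : ℝ → W} {K : ℝ} (hK : 0 ≤ K)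
    (h01 : ∀ t, 0 ≤ u t ∧ u t ≤ 1)
    (hder : ∀ t, (deriv u t) ^ 2 ≤ u t * (1 - u t) * (K * ‖deriv c t‖) ^ 2)
    (h0 : u 0 = 1) (h1 : u 1 = 0) {l : ℝ} (hl0 : 0 < l) (hl1 : l < 1) :
    ENNReal.ofReal (Real.pi - 2 * Real.arccos l) ≤
      ENNReal.ofReal K * ∫⁻ t in Icc (0 : ℝ) 1, ‖deriv c t‖ₑ := by
  set Ψ : ℝ → ℝ := fun t => Real.arccos (l * (2 * u t - 1)) with hΨ
  have hrange : ∀ t, -1 < l * (2 * u t - 1) ∧ l * (2 * u t - 1) < 1 := by
    intro t
    obtain ⟨ha, hb⟩ := h01 t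
    constructor <;> nlinarith
  have hΨc : ContDiff ℝ 1 Ψ := by
    rw [contDiff_iff_contDiffAt]
    intro t
    have h2 : ContDiffAt ℝ 1 Real.arccos (l * (2 * u t - 1)) :=
      Real.contDiffAt_arccos (hrange t).1.ne' (hrange t).2.ne
    have h3 : ContDiff ℝ 1 fun t => l * (2 * u t - 1) := by fun_prop
    exact ContDiffAt.comp (g := Real.arccos) (f := fun t => l * (2 * u t - 1)) t h2
      h3.contDiffAt
  have hderΨ : ∀ t, ‖deriv Ψ t‖ ≤ K * ‖deriv c t‖ := by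
    intro t
    have h2 : HasDerivAt (fun t => l * (2 * u t - 1)) (l * (2 * deriv u t)) t := by
      have := (hu.differentiable one_ne_zero t).hasDerivAt
      exact ((this.const_mul 2).sub_const 1).const_mul l
    have h3 := (Real.hasDerivAt_arccos (hrange t).1.ne' (hrange t).2.ne).comp t h2
    have h4 : deriv Ψ t = -(1 / √(1 - (l * (2 * u t - 1)) ^ 2)) * (l * (2 * deriv u t)) := h3.deriv
    have hpos : 0 < 1 - (l * (2 * u t - 1)) ^ 2 := by
      obtain ⟨ha, hb⟩ := hrange t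
      nlinarith
    have hsq : 0 < √(1 - (l * (2 * u t - 1)) ^ 2) := Real.sqrt_pos.mpr hpos
    have hsq2 : √(1 - (l * (2 * u t - 1)) ^ 2) ^ 2 = 1 - (l * (2 * u t - 1)) ^ 2 :=
      Real.sq_sqrt hpos.le
    set s := √(1 - (l * (2 * u t - 1)) ^ 2) with hs
    have h5 : ‖deriv Ψ t‖ = |l * (2 * deriv u t)| / s := by
      rw [h4, Real.norm_eq_abs, abs_mul, abs_neg, abs_of_pos (by positivity)]
      ring
    rw [h5, div_le_iff₀ hsq]
    apply abs_le_of_sq_le_sq _ (by positivity)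
    have h6 := hder t
    have h7 : (K * ‖deriv c t‖ * s) ^ 2 = (K * ‖deriv c t‖) ^ 2 * (1 - (l * (2 * u t - 1)) ^ 2) := by
      rw [mul_pow, hsq2]
    rw [h7]
    have h8 : (l * (2 * deriv u t)) ^ 2 = 4 * l ^ 2 * (deriv u t) ^ 2 := by ring
    rw [h8]
    have hl2 : 0 < l ^ 2 := by positivity
    have hl3 : l ^ 2 ≤ 1 := by nlinarith
    have h9 : 4 * l ^ 2 * (deriv u t) ^ 2 ≤ 4 * l ^ 2 * (u t * (1 - u t) *
        (K * ‖deriv c t‖) ^ 2) := by
      apply mul_le_mul_of_nonneg_left h6 (by positivity)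
    refine h9.trans ?_
    have h10 : 4 * l ^ 2 * (u t * (1 - u t) * (K * ‖deriv c t‖) ^ 2)
        = (K * ‖deriv c t‖) ^ 2 * (l ^ 2 - (l * (2 * u t - 1)) ^ 2) := by ring
    rw [h10]
    apply mul_le_mul_of_nonneg_left _ (by positivity)
    linarith
  have h2 := enorm_sub_le_lintegral_deriv_of_contDiffOn_Icc (f := Ψ) (a := 0) (b := 1)
    hΨc.contDiffOn zero_le_one
  have h3 : Ψ 1 - Ψ 0 = Real.pi - 2 * Real.arccos l := by
    simp only [hΨ, h0, h1]
    have : l * (2 * 0 - 1) = -l := by ring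
    rw [this, Real.arccos_neg]
    have : l * (2 * 1 - 1) = l := by ring
    rw [this]
    ring
  rw [h3] at h2
  have h4 : ENNReal.ofReal (Real.pi - 2 * Real.arccos l) ≤ ‖Real.pi - 2 * Real.arccos l‖ₑ := by
    rw [← ofReal_norm]
    exact ENNReal.ofReal_le_ofReal (le_abs_self _)
  refine h4.trans (h2.trans ?_)
  rw [← lintegral_const_mul' _ _ ENNReal.ofReal_ne_top]
  refine lintegral_mono fun t => ?_
  rw [← ofReal_norm, ← ofReal_norm, ← ENNReal.ofReal_mul hK]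
  exact ENNReal.ofReal_le_ofReal (hderΨ t)

theorem calibration {u : ℝ → ℝ} (hu : ContDiff ℝ 1 u) {c : ℝ → W} {K : ℝ} (hK : 0 ≤ K)
    (h01 : ∀ t, 0 ≤ u t ∧ u t ≤ 1)
    (hder : ∀ t, (deriv u t) ^ 2 ≤ u t * (1 - u t) * (K * ‖deriv c t‖) ^ 2)
    (h0 : u 0 = 1) (h1 : u 1 = 0) :
    ENNReal.ofReal Real.pi ≤ ENNReal.ofReal K * ∫⁻ t in Icc (0 : ℝ) 1, ‖deriv c t‖ₑ := by
  have hlim : Tendsto (fun l : ℝ => ENNReal.ofReal (Real.pi - 2 * Real.arccos l)) (𝓝[<] 1)
      (𝓝 (ENNReal.ofReal Real.pi)) := by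
    have h2 : Continuous fun l : ℝ => ENNReal.ofReal (Real.pi - 2 * Real.arccos l) :=
      ENNReal.continuous_ofReal.comp
        (continuous_const.sub (continuous_const.mul Real.continuous_arccos))
    have h3 := (h2.tendsto 1).mono_left (nhdsWithin_le_nhds (s := Iio (1 : ℝ)))
    simpa using h3
  refine le_of_tendsto hlim ?_
  have h2 : Ioo (0 : ℝ) 1 ∈ 𝓝[<] (1 : ℝ) := Ioo_mem_nhdsLT zero_lt_one
  filter_upwards [h2] with l hl
  exact calibration_aux hu hK h01 hder h0 h1 hl.1 hl.2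

end Pool.Agent.Work.MP_bc4532_gt
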