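import Pool.Agent.Work.MP_bc4532_gt.Winding

/-!
# Vietoris–Rips complexes of necked spaces
-/

open Set Topology

namespace Pool.Agent.Work.MP_bc4532_gt

theorem mem_VR_iff {Y : Type*} [PseudoMetricSpace Y] {r : ℝ} {σ : Finset Y} :
    σ ∈ (VR Y r).faces ↔ σ.Nonempty ∧ ∀ p ∈ σ, ∀ q ∈ σ, dist p q < r := by
  constructor
  · rintro ⟨h1, h2⟩
    refine ⟨h1, fun p hp q hq => ?_⟩
    exact lt_of_le_of_lt (Metric.dist_le_diam_of_mem σ.finite_toSet.isBounded hp hq) h2
  · rintro ⟨h1, h2⟩
    refine ⟨h1, ?_⟩
    have hne : (σ ×ˢ σ).Nonempty := h1.product h1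
    have h3 : (σ ×ˢ σ).sup' hne (fun p => dist p.1 p.2) < r := by
      rw [Finset.sup'_lt_iff]
      intro p hp
      rw [Finset.mem_product] at hp
      exact h2 p.1 hp.1 p.2 hp.2
    refine lt_of_le_of_lt ?_ h3
    refine Metric.diam_le_of_forall_dist_le_of_nonempty h1 ?_
    intro p hp q hq
    exact Finset.le_sup' (fun p : Y × Y => dist p.1 p.2) (Finset.mem_product.mpr ⟨hp, hq⟩ :
      (p, q) ∈ σ ×ˢ σ)

namespace NeckSetup

variable {M B : Type*} [MetricSpace M] [TopologicalSpace B] {θ : M → Circle}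
  {z : M → B} {U : Set B} {r : ℝ}

/-- If the directions of the vertices of a simplex surround the origin, every vertex belongs to a
winding triangle. -/
theorem exists_winding (S : NeckSetup θ z U r) {σ : Finset M}
    (hσ : ∀ p ∈ σ, ∀ q ∈ σ, dist p q < r)
    (h0 : (0 : ℂ) ∈ convexHull ℝ ((fun p => (θ p : ℂ)) '' (σ : Set M))) {v : M} (hv : v ∈ σ) :
    ∃ p ∈ σ, ∃ q ∈ σ, ang θ v p + ang θ p q + ang θ q v ≠ 0 := by
  classical
  by_contra hcon
  push Not at hcon
  have hne : σ.Nonempty := ⟨v, hv⟩
  have hanti : ∀ p ∈ σ, ang θ p v = -ang θ v p := fun p hp =>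
    ang_symm θ (S.ne_neg (hσ v hv p hp))
  have hdiff : ∀ p ∈ σ, ∀ q ∈ σ, ang θ p q = ang θ v q - ang θ v p := by
    intro p hp q hq
    have h1 := hcon p hp q hq
    rw [hanti q hq] at h1
    linarith
  have hlt : ∀ p ∈ σ, ∀ q ∈ σ, ang θ v q - ang θ v p < Real.pi := by
    intro p hp q hq
    rw [← hdiff p hp q hq]
    exact ang_lt_pi θ (S.ne_neg (hσ p hp q hq))
  obtain ⟨pm, hpm, hm⟩ := σ.exists_min_image (fun p => ang θ v p) hne
  obtain ⟨pM, hpM, hM⟩ := σ.exists_max_image (fun p => ang θ v p) hne
  set c := (ang θ v pm + ang θ v pM) / 2 with hc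
  have hlt2 := hlt pm hpm pM hpM
  let K : Circle := (θ v)⁻¹ * Circle.exp (-c)
  have hlin : IsLinearMap ℝ (fun ζ : ℂ => (ζ * (K : ℂ)).re) :=
    ⟨fun x y => by rw [add_mul, Complex.add_re], fun t x => by
      simp [mul_assoc]⟩
  have hconv := convex_halfSpace_gt hlin 0
  have hsub : (fun p => (θ p : ℂ)) '' (σ : Set M) ⊆ {ζ : ℂ | 0 < (ζ * (K : ℂ)).re} := by
    rintro _ ⟨p, hp, rfl⟩
    have h1 : θ p * K = Circle.exp (ang θ v p - c) := by
      rw [sub_eq_add_neg, Circle.exp_add, exp_ang]
      simp only [K, div_eq_mul_inv]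
      rw [mul_assoc]
    have h2 : ((θ p : ℂ) * (K : ℂ)) = ((Circle.exp (ang θ v p - c) : Circle) : ℂ) := by
      rw [← h1]
      exact (Circle.coe_mul (θ p) K).symm
    simp only [mem_ofPred_eq]
    rw [h2, Circle.coe_exp, Complex.exp_ofReal_mul_I_re]
    apply Real.cos_pos_of_mem_Ioo
    have h3 := hm p hp
    have h4 := hM p hp
    constructor <;> linarith
  have h1 := convexHull_min hsub hconv h0
  simp at h1

/-- If the directions of the vertices of a simplex surround the origin, then the simplex lies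
over a single neck. -/
theorem same_neck (S : NeckSetup θ z U r) {σ : Finset M}
    (hσ : ∀ p ∈ σ, ∀ q ∈ σ, dist p q < r)
    (h0 : (0 : ℂ) ∈ convexHull ℝ ((fun p => (θ p : ℂ)) '' (σ : Set M))) {v v' : M} (hv : v ∈ σ)
    (hv' : v' ∈ σ) : connectedComponentIn U (z v) = connectedComponentIn U (z v') := by
  obtain ⟨p, hp, q, hq, hw⟩ := S.exists_winding hσ h0 hv
  obtain ⟨-, h1, h2⟩ := S.winding_triple (hσ v hv p hp) (hσ p hp q hq) (hσ q hq v hv) hw
  have hanti : ∀ x ∈ σ, ∀ y ∈ σ, ang θ y x = -ang θ x y := fun x hx y hy =>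
    ang_symm θ (S.ne_neg (hσ x hx y hy))
  have hcoc : (ang θ v' p + ang θ p q + ang θ q v') + (ang θ v v' + ang θ v' q + ang θ q v)
      + (ang θ v p + ang θ p v' + ang θ v' v) = ang θ v p + ang θ p q + ang θ q v := by
    rw [hanti v' hv' p hp, hanti v' hv' q hq, hanti v' hv' v hv]
    ring
  by_cases ha : ang θ v' p + ang θ p q + ang θ q v' = 0
  · by_cases hb : ang θ v v' + ang θ v' q + ang θ q v = 0
    · have hc : ang θ v p + ang θ p v' + ang θ v' v ≠ 0 := by
        intro hc
        rw [ha, hb, hc] at hcoc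
        exact hw (by linarith)
      exact (S.winding_triple (hσ v hv p hp) (hσ p hp v' hv') (hσ v' hv' v hv) hc).2.2
    · exact (S.winding_triple (hσ v hv v' hv') (hσ v' hv' q hq) (hσ q hq v hv) hb).2.1
  · have h3 := (S.winding_triple (hσ v' hv' p hp) (hσ p hp q hq) (hσ q hq v' hv') ha).2.1
    exact h1.trans h3.symm

end NeckSetup

/-- The vertex map to Euclidean three-space: `ζ` is a direction in the plane, `s = ±1`. -/
noncomputable def vertexMap (ζ : ℂ) (s : ℝ) : E3 :=
  WithLp.toLp 2 ![(2 * ζ.re + s) / 3, (-ζ.re + √3 * ζ.im + s) / 3,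
    (-ζ.re - √3 * ζ.im + s) / 3]

theorem height_vertexMap (ζ : ℂ) (s : ℝ) : height (vertexMap ζ s) = -s := by
  simp [height, vertexMap]
  ring

/-- The projection to the plane. -/
noncomputable def planeProj (x : E3) : ℂ :=
  ⟨x 0 - x 1 / 2 - x 2 / 2, √3 / 2 * (x 1 - x 2)⟩

theorem planeProj_linear : IsLinearMap ℝ planeProj where
  map_add x y := by
    apply Complex.ext
    · simp [planeProj]; ring
    · simp [planeProj]; ring
  map_smul c x := by
    apply Complex.ext
    · simp [planeProj]; ring
    · simp [planeProj]; ring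

theorem planeProj_vertexMap (ζ : ℂ) (s : ℝ) : planeProj (vertexMap ζ s) = ζ := by
  have h3 : √3 * √3 = 3 := Real.mul_self_sqrt (by norm_num)
  apply Complex.ext
  · simp [planeProj, vertexMap]; ring
  · simp [planeProj, vertexMap]
    have : √3 / 2 * ((-ζ.re + √3 * ζ.im + s) / 3 - (-ζ.re - √3 * ζ.im + s) / 3)
        = (√3 * √3) * ζ.im / 3 := by ring
    rw [this, h3]
    ring

theorem height_linear : IsLinearMap ℝ height := ⟨height_add, fun c x => height_smul c x⟩

/-- The three cube roots of unity. -/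
noncomputable def omega (i : Fin 3) : ℂ := ![1, ⟨-1 / 2, √3 / 2⟩, ⟨-1 / 2, -(√3 / 2)⟩] i

theorem vertexMap_omega (i : Fin 3) : vertexMap (omega i) 1 = EuclideanSpace.single i 1 := by
  have h3 : √3 * √3 = 3 := Real.mul_self_sqrt (by norm_num)
  ext j
  fin_cases i <;> fin_cases j <;> simp [vertexMap, omega] <;> nlinarith

theorem vertexMap_neg (ζ : ℂ) (s : ℝ) : vertexMap (-ζ) (-s) = -vertexMap ζ s := by
  ext j
  fin_cases j <;> simp [vertexMap] <;> ring

/-- **Main abstract theorem.** A necked space with infinitely many necks, each carrying an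
octahedron, has a Vietoris–Rips complex which is not homotopy equivalent to a compact space. -/
theorem NeckSetup.not_homotopyEquiv {M B : Type*} [MetricSpace M] [TopologicalSpace B]
    {θ : M → Circle} {z : M → B} {U : Set B} {r : ℝ} (S : NeckSetup θ z U r)
    (a b : ℕ → Fin 3 → M) (N : ℕ → Set B) (hN : Function.Injective N)
    (ha : ∀ k i, connectedComponentIn U (z (a k i)) = N k)
    (hb : ∀ k i, connectedComponentIn U (z (b k i)) ≠ N k)
    (hθa : ∀ k i, (θ (a k i) : ℂ) = omega i) (hθb : ∀ k i, (θ (b k i) : ℂ) = -omega i)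
    (haa : ∀ k i j, dist (a k i) (a k j) < r) (hbb : ∀ k i j, dist (b k i) (b k j) < r)
    (hab : ∀ k i j, i ≠ j → dist (a k i) (b k j) < r)
    (Z : Type*) [TopologicalSpace Z] [CompactSpace Z] :
    ¬ Nonempty (ContinuousMap.HomotopyEquiv Z (Realization (VR M r))) := by
  classical
  let L : ℕ → Set M := fun k => {p | connectedComponentIn U (z p) = N k}
  let g : ℕ → M → E3 := fun k p => vertexMap (θ p) (if p ∈ L k then 1 else -1)
  refine not_homotopyEquiv_of_octahedra (VR M r) g L ?_ ?_ ?_ a b ?_ ?_ ?_ Z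
  · intro v
    refine Set.Subsingleton.finite ?_
    intro k hk l hl
    have h1 : connectedComponentIn U (z v) = N k := hk
    have h2 : connectedComponentIn U (z v) = N l := hl
    exact hN (h1.symm.trans h2)
  · intro k σ hσ h0
    rw [mem_VR_iff] at hσ
    obtain ⟨⟨v, hv⟩, hσ⟩ := hσ
    -- project to the plane
    have h1 : (0 : ℂ) ∈ convexHull ℝ ((fun p => (θ p : ℂ)) '' (σ : Set M)) := by
      have h2 := planeProj_linear.image_convexHull (g k '' (σ : Set M))
      have h3 : planeProj 0 ∈ planeProj '' convexHull ℝ (g k '' (σ : Set M)) :=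
        mem_image_of_mem _ h0
      rw [h2, image_image] at h3
      have h4 : planeProj 0 = 0 := planeProj_linear.map_zero
      rw [h4] at h3
      simpa only [g, planeProj_vertexMap] using h3
    have hsame : ∀ p ∈ σ, connectedComponentIn U (z p) = connectedComponentIn U (z v) :=
      fun p hp => S.same_neck hσ h1 hp hv
    have hconst : ∀ p ∈ σ, height (g k p) = height (g k v) := by
      intro p hp
      simp only [g, height_vertexMap]
      have : p ∈ L k ↔ v ∈ L k := by
        simp only [L, mem_ofPred_eq, hsame p hp]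
      simp only [this]
    have hne : height (g k v) ≠ 0 := by
      simp only [g, height_vertexMap]
      split_ifs <;> norm_num
    have hconv : Convex ℝ {x : E3 | height x = height (g k v)} := by
      have := (convex_singleton (height (g k v))).is_linear_preimage height_linear
      exact this
    have hsub : g k '' (σ : Set M) ⊆ {x : E3 | height x = height (g k v)} := by
      rintro _ ⟨p, hp, rfl⟩
      exact hconst p hp
    have h5 : height (0 : E3) = height (g k v) := convexHull_min hsub hconv h0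
    rw [height_zero] at h5
    exact hne h5.symm
  · intro k v hv
    simp only [g, height_vertexMap, if_neg hv]
    norm_num
  · intro k i
    have : a k i ∈ L k := ha k i
    simp only [g, if_pos this, hθa, vertexMap_omega]
  · intro k i
    have : b k i ∉ L k := hb k i
    simp only [g, if_neg this, hθb, vertexMap_neg, vertexMap_omega]
  · intro k ε
    rw [mem_VR_iff]
    refine ⟨?_, ?_⟩
    · unfold octFace
      exact Finset.univ_nonempty.image _
    · intro p hp q hq
      unfold octFace at hp hq
      rw [Finset.mem_image] at hp hq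
      obtain ⟨i, -, rfl⟩ := hp
      obtain ⟨j, -, rfl⟩ := hq
      by_cases hi : ε i = true
      · by_cases hj : ε j = true
        · rw [if_pos hi, if_pos hj]; exact haa k i j
        · rw [if_pos hi, if_neg hj]
          refine hab k i j ?_
          rintro rfl
          exact hj hi
      · by_cases hj : ε j = true
        · rw [if_neg hi, if_pos hj, dist_comm]
          refine hab k j i ?_
          rintro rfl
          exact hi hj
        · rw [if_neg hi, if_neg hj]; exact hbb k i j

end Pool.Agent.Work.MP_bc4532_gt
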