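import Pool.Agent.Work.MP_bc4532_gt.TorusMetric
import Pool.Agent.Work.MP_bc4532_gt.Calibration
import Pool.Agent.Work.MP_bc4532_gt.VietorisRips

/-!
# Lower bounds for distances in the necked torus
-/

open Bundle Topology Bornology Set MeasureTheory Manifold
open scoped Manifold ContDiff ENNReal

noncomputable section

namespace Pool.Agent.Work.MP_bc4532_gt

/-- Projection estimate for a vector orthogonal to a unit vector. -/
theorem inner_sq_le {V : Type*} [NormedAddCommGroup V] [InnerProductSpace ℝ V] {x w v : V}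
    (hx : ‖x‖ = 1) (hw : ‖w‖ = 1) (hv : inner ℝ v x = 0) :
    (inner ℝ v w) ^ 2 ≤ ‖v‖ ^ 2 * (1 - (inner ℝ x w) ^ 2) := by
  set A := inner ℝ x w with hA
  have h1 : inner ℝ v w = inner ℝ v (w - A • x) := by
    rw [inner_sub_right, inner_smul_right, hv]; ring
  have h2 : ‖w - A • x‖ ^ 2 = 1 - A ^ 2 := by
    rw [@norm_sub_sq_real, inner_smul_right, norm_smul, hx, hw, real_inner_comm, ← hA,
      Real.norm_eq_abs, mul_one, sq_abs]
    ring
  rw [h1, ← h2, ← mul_pow]
  exact sq_le_sq' (by have := abs_le.mp (abs_real_inner_le_norm v (w - A • x)); linarith [this.1])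
    (real_inner_le_norm _ _)

/-- The algebraic inequality behind the wall estimate. -/
theorem wall_algebra {α β X Y a b s2 : ℝ} (hα0 : 0 ≤ α) (hα2 : α ≤ 2) (hβ0 : 0 ≤ β) (hβ2 : β ≤ 2)
    (hX : 0 ≤ X) (hY : 0 ≤ Y) (ha : a ^ 2 ≤ X * (α * (2 - α))) (hb : b ^ 2 ≤ Y * (β * (2 - β)))
    (hs : X + α / 2 * Y ≤ s2) :
    (a * β + α * b) ^ 2 ≤ α * β * (4 - α * β) * s2 := by
  set p := 2 * (2 - β) * X with hp
  set q := α * β * (2 - α) * Y / 2 with hq
  have hαβ : 0 ≤ α * β := mul_nonneg hα0 hβ0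
  have hp0 : 0 ≤ p := by
    rw [hp]
    exact mul_nonneg (mul_nonneg zero_le_two (by linarith)) hX
  have hq0 : 0 ≤ q := by
    rw [hq]
    exact div_nonneg (mul_nonneg (mul_nonneg hαβ (by linarith)) hY) zero_le_two
  have h1 : (2 * (a * b)) ^ 2 ≤ (p + q) ^ 2 := by
    have h2 : a ^ 2 * b ^ 2 ≤ (X * (α * (2 - α))) * (Y * (β * (2 - β))) :=
      mul_le_mul ha hb (sq_nonneg b) (mul_nonneg hX (mul_nonneg hα0 (by linarith)))
    have h3 : (X * (α * (2 - α))) * (Y * (β * (2 - β))) = p * q := by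
      rw [hp, hq]; ring
    nlinarith [sq_nonneg (p - q)]
  have h2 : 2 * (a * b) ≤ p + q := by
    have := abs_le_of_sq_le_sq h1 (by linarith)
    exact (abs_le.mp this).2
  have h3 : (a * β + α * b) ^ 2 ≤ X * (α * (2 - α)) * β ^ 2 + α ^ 2 * (Y * (β * (2 - β)))
      + α * β * (p + q) := by
    have h4 : a ^ 2 * β ^ 2 ≤ X * (α * (2 - α)) * β ^ 2 :=
      mul_le_mul_of_nonneg_right ha (sq_nonneg β)
    have h5 : α ^ 2 * b ^ 2 ≤ α ^ 2 * (Y * (β * (2 - β))) :=
      mul_le_mul_of_nonneg_left hb (sq_nonneg α)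
    have h6 : α * β * (2 * (a * b)) ≤ α * β * (p + q) := mul_le_mul_of_nonneg_left h2 hαβ
    nlinarith
  have h4 : X * (α * (2 - α)) * β ^ 2 + α ^ 2 * (Y * (β * (2 - β))) + α * β * (p + q)
      = α * β * (4 - α * β) * (X + α / 2 * Y) := by
    rw [hp, hq]; ring
  rw [h4] at h3
  refine h3.trans ?_
  have h5 : 0 ≤ α * β * (4 - α * β) := by
    apply mul_nonneg hαβ
    nlinarith
  exact mul_le_mul_of_nonneg_left hs h5

namespace WTorus

variable (P : Profile)

theorem norm_zc (p : WTorus P) : ‖zc P p‖ = 1 := Circle.norm_coe p.1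

theorem norm_tc (p : WTorus P) : ‖tc P p‖ = 1 := Circle.norm_coe p.2

section path

variable {P} {γ : ℝ → WTorus P} (hγ : ContMDiff 𝓘(ℝ) TI 1 γ)

include hγ

theorem contDiff_zc_comp : ContDiff ℝ 1 (fun t => zc P (γ t)) :=
  ((contMDiff_zc P).comp hγ).contDiff

theorem contDiff_tc_comp : ContDiff ℝ 1 (fun t => tc P (γ t)) :=
  ((contMDiff_tc P).comp hγ).contDiff

theorem inner_deriv_zc (t : ℝ) : inner ℝ (deriv (fun t => zc P (γ t)) t) (zc P (γ t)) = 0 := by
  have h1 := ((contDiff_zc_comp hγ).differentiable one_ne_zero t).hasDerivAt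
  have h2 := h1.inner ℝ h1
  have h3 : (fun s => inner ℝ (zc P (γ s)) (zc P (γ s))) = fun _ : ℝ => (1 : ℝ) := by
    funext s
    rw [real_inner_self_eq_norm_sq, norm_zc]; norm_num
  rw [h3] at h2
  have h4 := h2.unique (hasDerivAt_const t (1 : ℝ))
  rw [real_inner_comm] at h4
  linarith

theorem inner_deriv_tc (t : ℝ) : inner ℝ (deriv (fun t => tc P (γ t)) t) (tc P (γ t)) = 0 := by
  have h1 := ((contDiff_tc_comp hγ).differentiable one_ne_zero t).hasDerivAt
  have h2 := h1.inner ℝ h1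
  have h3 : (fun s => inner ℝ (tc P (γ s)) (tc P (γ s))) = fun _ : ℝ => (1 : ℝ) := by
    funext s
    rw [real_inner_self_eq_norm_sq, norm_tc]; norm_num
  rw [h3] at h2
  have h4 := h2.unique (hasDerivAt_const t (1 : ℝ))
  rw [real_inner_comm] at h4
  linarith

/-- The speed of a curve in the torus. -/
theorem speed_ge (t : ℝ) :
    ‖deriv (fun t => zc P (γ t)) t‖ ^ 2
      + rad P (zc P (γ t)).im ^ 2 * ‖deriv (fun t => tc P (γ t)) t‖ ^ 2
      ≤ ‖deriv (emb P ∘ γ) t‖ ^ 2 := by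
  set x : ℝ → ℂ := fun t => zc P (γ t) with hx
  set y : ℝ → ℂ := fun t => tc P (γ t) with hy
  have hxd : HasDerivAt x (deriv x t) t :=
    ((contDiff_zc_comp hγ).differentiable one_ne_zero t).hasDerivAt
  have hyd : HasDerivAt y (deriv y t) t :=
    ((contDiff_tc_comp hγ).differentiable one_ne_zero t).hasDerivAt
  have hrd : DifferentiableAt ℝ (fun s => rad P (x s).im) t := by
    have h1 : DifferentiableAt ℝ (rad P) (x t).im :=
      (contDiff_rad P).differentiable (by simp) _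
    have h2 : DifferentiableAt ℝ (fun s => (x s).im) t :=
      (Complex.imCLM.differentiableAt).comp t hxd.differentiableAt
    exact DifferentiableAt.comp (g := rad P) (f := fun s => (x s).im) t h1 h2
  set ρ := rad P (x t).im with hρ
  set ρ' := deriv (fun s => rad P (x s).im) t with hρ'
  have h1 : HasDerivAt (fun s => (rad P (x s).im : ℝ) • y s) (ρ • deriv y t + ρ' • y t) t :=
    hrd.hasDerivAt.smul hyd
  have h2 : HasDerivAt (fun s => (x s, (rad P (x s).im : ℝ) • y s))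
      (deriv x t, ρ • deriv y t + ρ' • y t) t := hxd.prodMk h1
  have h3 : HasDerivAt (emb P ∘ γ)
      ((WithLp.prodContinuousLinearEquiv 2 ℝ ℂ ℂ).symm (deriv x t, ρ • deriv y t + ρ' • y t)) t :=
    ((WithLp.prodContinuousLinearEquiv 2 ℝ ℂ ℂ).symm.hasFDerivAt).comp_hasDerivAt t h2
  rw [h3.deriv]
  have h4 : ‖(WithLp.prodContinuousLinearEquiv 2 ℝ ℂ ℂ).symm
      (deriv x t, ρ • deriv y t + ρ' • y t)‖ ^ 2
      = ‖deriv x t‖ ^ 2 + ‖ρ • deriv y t + ρ' • y t‖ ^ 2 := by
    exact WithLp.prod_norm_sq_eq_of_L2 _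
  rw [h4]
  have h5 : ‖ρ • deriv y t + ρ' • y t‖ ^ 2 = ρ ^ 2 * ‖deriv y t‖ ^ 2 + ρ' ^ 2 := by
    rw [@norm_add_sq_real, norm_smul, norm_smul, inner_smul_left, inner_smul_right,
      inner_deriv_tc hγ t, norm_tc, mul_pow, mul_pow, Real.norm_eq_abs, Real.norm_eq_abs,
      sq_abs, sq_abs]
    simp
  rw [h5]
  have h6 := sq_nonneg ρ'
  linarith

end path

variable {P}

/-- Sine-type bound on the profile near a wall point. -/
theorem rad_sq_ge {w : ℂ} (hw : ‖w‖ = 1) (hP : P.h w.im = 0) {x : ℂ} (hx : ‖x‖ = 1) :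
    (1 + inner ℝ x w) / 2 ≤ rad P x.im ^ 2 := by
  rw [rad_sq]
  have h1 := P.lip x.im w.im
  rw [hP, sub_zero] at h1
  have h2 : |x.im - w.im| ≤ ‖x - w‖ := by
    have := Complex.abs_im_le_norm (x - w)
    simpa using this
  have h3 : ‖x - w‖ ^ 2 = 2 - 2 * inner ℝ x w := by
    rw [@norm_sub_sq_real, hx, hw]; ring
  have h4 : |P.h x.im| ≤ ‖x - w‖ / 2 := h1.trans (by linarith)
  have h5 : P.h x.im ^ 2 ≤ (‖x - w‖ / 2) ^ 2 := by
    rw [← sq_abs]
    exact pow_le_pow_left₀ (abs_nonneg _) h4 2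
  rw [div_pow, h3] at h5
  linarith

theorem inner_mem {x w : ℂ} (hx : ‖x‖ = 1) (hw : ‖w‖ = 1) :
    -1 ≤ inner ℝ x w ∧ inner ℝ x w ≤ 1 := by
  have h := abs_real_inner_le_norm x w
  rw [hx, hw, mul_one] at h
  exact abs_le.mp h

/-- Length of curves ending at opposite angles. -/
theorem length_opp {γ : ℝ → WTorus P} (hγ : ContMDiff 𝓘(ℝ) TI 1 γ)
    (hopp : tc P (γ 1) = -tc P (γ 0)) :
    ENNReal.ofReal Real.pi ≤
      ENNReal.ofReal (3 / 2) * ∫⁻ t in Icc (0 : ℝ) 1, ‖deriv (emb P ∘ γ) t‖ₑ := by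
  set y0 := tc P (γ 0) with hy0
  have hn0 : ‖y0‖ = 1 := norm_tc P _
  refine calibration (u := fun t => (1 + inner ℝ (tc P (γ t)) y0) / 2) ?_ (by norm_num)
    ?_ ?_ ?_ ?_
  · exact (contDiff_const.add ((contDiff_tc_comp hγ).inner ℝ contDiff_const)).div_const 2
  · intro t
    obtain ⟨h1, h2⟩ := inner_mem (norm_tc P (γ t)) hn0
    constructor <;> linarith
  · intro t
    have hyd := ((contDiff_tc_comp hγ).differentiable one_ne_zero t).hasDerivAt
    have h1 : HasDerivAt (fun t => (1 + inner ℝ (tc P (γ t)) y0) / 2)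
        ((inner ℝ (deriv (fun t => tc P (γ t)) t) y0) / 2) t := by
      have h2 := hyd.inner ℝ (hasDerivAt_const t y0)
      have h3 := (h2.const_add 1).div_const 2
      simpa using h3
    rw [h1.deriv]
    have h2 := inner_sq_le (norm_tc P (γ t)) hn0 (inner_deriv_tc hγ t)
    have h3 := speed_ge hγ t
    set B := inner ℝ (tc P (γ t)) y0 with hB
    set Y := ‖deriv (fun t => tc P (γ t)) t‖ ^ 2 with hY
    set s := ‖deriv (emb P ∘ γ) t‖ with hs
    have h4 : Y ≤ (3 / 2 * s) ^ 2 := by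
      have h5 := rad_sq P (zc P (γ t)).im
      have h6 := one_sub_pos P (zc P (γ t)).im
      have h7 : 0 ≤ Y := sq_nonneg _
      have h8 : 0 ≤ ‖deriv (fun t => zc P (γ t)) t‖ ^ 2 := sq_nonneg _
      have h9 : 3 / 4 * Y ≤ rad P (zc P (γ t)).im ^ 2 * Y := by
        rw [h5]; exact mul_le_mul_of_nonneg_right h6 h7
      nlinarith [sq_nonneg s]
    obtain ⟨h5, h6⟩ := inner_mem (norm_tc P (γ t)) hn0
    rw [← hB] at h5 h6
    have h7 : 0 ≤ 1 - B ^ 2 := by nlinarith
    calc (inner ℝ (deriv (fun t => tc P (γ t)) t) y0 / 2) ^ 2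
        = (inner ℝ (deriv (fun t => tc P (γ t)) t) y0) ^ 2 / 4 := by ring
      _ ≤ Y * (1 - B ^ 2) / 4 := by linarith
      _ ≤ (3 / 2 * s) ^ 2 * (1 - B ^ 2) / 4 := by
          have := mul_le_mul_of_nonneg_right h4 h7
          linarith
      _ = (1 + B) / 2 * (1 - (1 + B) / 2) * (3 / 2 * s) ^ 2 := by ring
  · simp only [← hy0]
    rw [real_inner_self_eq_norm_sq, hn0]; norm_num
  · simp only [hopp]
    rw [inner_neg_left, real_inner_self_eq_norm_sq, hn0]; norm_num

/-- Length of curves from a wall point to a point at the opposite angle. -/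
theorem length_wall {γ : ℝ → WTorus P} (hγ : ContMDiff 𝓘(ℝ) TI 1 γ)
    (hP : P.h (zc P (γ 0)).im = 0) (hopp : tc P (γ 1) = -tc P (γ 0)) :
    ENNReal.ofReal Real.pi ≤ ∫⁻ t in Icc (0 : ℝ) 1, ‖deriv (emb P ∘ γ) t‖ₑ := by
  set y0 := tc P (γ 0) with hy0
  set w := zc P (γ 0) with hw0
  have hn0 : ‖y0‖ = 1 := norm_tc P _
  have hw : ‖w‖ = 1 := norm_zc P _
  have key := calibration (c := emb P ∘ γ) (K := 1)
    (u := fun t => (1 + inner ℝ (zc P (γ t)) w) * (1 + inner ℝ (tc P (γ t)) y0) / 4)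
    ?_ zero_le_one ?_ ?_ ?_ ?_
  · simpa using key
  · exact ((contDiff_const.add ((contDiff_zc_comp hγ).inner ℝ contDiff_const)).mul
      (contDiff_const.add ((contDiff_tc_comp hγ).inner ℝ contDiff_const))).div_const 4
  · intro t
    obtain ⟨h1, h2⟩ := inner_mem (norm_tc P (γ t)) hn0
    obtain ⟨h3, h4⟩ := inner_mem (norm_zc P (γ t)) hw
    constructor
    · apply div_nonneg (mul_nonneg (by linarith) (by linarith)) (by norm_num)
    · have h5 : (1 + inner ℝ (zc P (γ t)) w) * (1 + inner ℝ (tc P (γ t)) y0) ≤ 2 * 2 := by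
        apply mul_le_mul <;> linarith
      linarith
  · intro t
    have hxd := ((contDiff_zc_comp hγ).differentiable one_ne_zero t).hasDerivAt
    have hyd := ((contDiff_tc_comp hγ).differentiable one_ne_zero t).hasDerivAt
    set A := inner ℝ (zc P (γ t)) w with hA
    set B := inner ℝ (tc P (γ t)) y0 with hB
    set a := inner ℝ (deriv (fun t => zc P (γ t)) t) w with ha
    set b := inner ℝ (deriv (fun t => tc P (γ t)) t) y0 with hb
    have h1 : HasDerivAt
        (fun t => (1 + inner ℝ (zc P (γ t)) w) * (1 + inner ℝ (tc P (γ t)) y0) / 4)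
        ((a * (1 + B) + (1 + A) * b) / 4) t := by
      have h2 := (hxd.inner ℝ (hasDerivAt_const t w)).const_add 1
      have h3 := (hyd.inner ℝ (hasDerivAt_const t y0)).const_add 1
      have h4 := (h2.mul h3).div_const 4
      refine h4.congr_deriv ?_
      simp only [inner_zero_right, zero_add]
      rfl
    rw [h1.deriv]
    have h2 := inner_sq_le (norm_tc P (γ t)) hn0 (inner_deriv_tc hγ t)
    have h2' := inner_sq_le (norm_zc P (γ t)) hw (inner_deriv_zc hγ t)
    rw [← hB, ← hb] at h2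
    rw [← hA, ← ha] at h2'
    have h3 := speed_ge hγ t
    obtain ⟨h5, h6⟩ := inner_mem (norm_tc P (γ t)) hn0
    obtain ⟨h7, h8⟩ := inner_mem (norm_zc P (γ t)) hw
    rw [← hB] at h5 h6
    rw [← hA] at h7 h8
    have h9 := rad_sq_ge hw hP (norm_zc P (γ t))
    rw [← hA] at h9
    set X := ‖deriv (fun t => zc P (γ t)) t‖ ^ 2 with hX
    set Y := ‖deriv (fun t => tc P (γ t)) t‖ ^ 2 with hY
    set s := ‖deriv (emb P ∘ γ) t‖ with hs
    have hY0 : 0 ≤ Y := sq_nonneg _
    have h10 : X + (1 + A) / 2 * Y ≤ s ^ 2 := by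
      have := mul_le_mul_of_nonneg_right h9 hY0
      linarith
    have h11 := wall_algebra (α := 1 + A) (β := 1 + B) (X := X) (Y := Y) (a := a) (b := b)
      (s2 := s ^ 2) (by linarith) (by linarith) (by linarith) (by linarith) (sq_nonneg _) hY0
      (by calc a ^ 2 ≤ X * (1 - A ^ 2) := h2'
            _ = X * ((1 + A) * (2 - (1 + A))) := by ring)
      (by calc b ^ 2 ≤ Y * (1 - B ^ 2) := h2
            _ = Y * ((1 + B) * (2 - (1 + B))) := by ring) h10
    calc ((a * (1 + B) + (1 + A) * b) / 4) ^ 2 = (a * (1 + B) + (1 + A) * b) ^ 2 / 16 := by ring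
      _ ≤ (1 + A) * (1 + B) * (4 - (1 + A) * (1 + B)) * s ^ 2 / 16 := by linarith
      _ = (1 + A) * (1 + B) / 4 * (1 - (1 + A) * (1 + B) / 4) * (1 * s) ^ 2 := by ring
  · simp only [← hy0, ← hw0]
    rw [real_inner_self_eq_norm_sq, real_inner_self_eq_norm_sq, hn0, hw]; norm_num
  · simp only [hopp]
    rw [inner_neg_left, real_inner_self_eq_norm_sq, hn0]; norm_num

end WTorus

end Pool.Agent.Work.MP_bc4532_gt
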