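import Pool.Agent.Work.MP_bc4532_gt.Essential

/-!
# An octahedron criterion for a simplicial complex not to be compactly dominated
-/

open Set Topology

namespace Pool.Agent.Work.MP_bc4532_gt

/-- Minus the sum of the coordinates. -/
noncomputable def height (x : E3) : ℝ := -(x 0 + x 1 + x 2)

theorem height_zero : height 0 = 0 := by simp [height]

theorem height_add (x y : E3) : height (x + y) = height x + height y := by
  simp [height]; ring

theorem height_smul (c : ℝ) (x : E3) : height (c • x) = c * height x := by
  simp [height]; ring

theorem height_sum {ι : Type*} (s : Finset ι) (f : ι → E3) :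
    height (∑ i ∈ s, f i) = ∑ i ∈ s, height (f i) := by
  classical
  induction s using Finset.induction_on with
  | empty => simp [height_zero]
  | insert a s ha ih => rw [Finset.sum_insert ha, Finset.sum_insert ha, height_add, ih]

section sphere

variable {V : Type*} {K : PreAbstractSimplicialComplex V}

/-- Barycentric coordinates of the octahedral sphere with opposite vertices `a i`, `b i`. -/
noncomputable def octCoord (a b : Fin 3 → V) (x : E3) : V →₀ ℝ :=
  ∑ i, (Finsupp.single (a i) (max (x i) 0) + Finsupp.single (b i) (max (-x i) 0))

theorem octCoord_sum_smul {W : Type*} [AddCommGroup W] [Module ℝ W] (a b : Fin 3 → V) (x : E3)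
    (g : V → W) : ((octCoord a b x).sum fun v t => t • g v)
      = ∑ i, (max (x i) 0 • g (a i) + max (-x i) 0 • g (b i)) := by
  classical
  unfold octCoord
  rw [← Finsupp.sum_finsetSum_index (fun v => zero_smul ℝ (g v)) (fun v s t => add_smul s t (g v))]
  refine Finset.sum_congr rfl fun i _ => ?_
  rw [Finsupp.sum_add_index' (fun v => zero_smul ℝ (g v)) (fun v s t => add_smul s t (g v)),
    Finsupp.sum_single_index (zero_smul ℝ (g (a i))),
    Finsupp.sum_single_index (zero_smul ℝ (g (b i)))]

theorem max_add_max (t : ℝ) : max t 0 + max (-t) 0 = |t| := by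
  rcases le_total 0 t with h | h
  · rw [max_eq_left h, max_eq_right (by linarith), abs_of_nonneg h, add_zero]
  · rw [max_eq_right h, max_eq_left (by linarith), abs_of_nonpos h, zero_add]

theorem max_sub_max (t : ℝ) : max t 0 - max (-t) 0 = t := by
  rcases le_total 0 t with h | h
  · rw [max_eq_left h, max_eq_right (by linarith), sub_zero]
  · rw [max_eq_right h, max_eq_left (by linarith)]; ring

theorem octCoord_sum (a b : Fin 3 → V) (x : E3) :
    ((octCoord a b x).sum fun _ t => t) = l1 x := by
  have h := octCoord_sum_smul (W := ℝ) a b x (fun _ => 1)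
  simp only [smul_eq_mul, mul_one] at h
  rw [h, l1]
  exact Finset.sum_congr rfl fun i _ => max_add_max _

theorem octCoord_nonneg (a b : Fin 3 → V) (x : E3) (v : V) : 0 ≤ octCoord a b x v := by
  classical
  unfold octCoord
  rw [Finsupp.finsetSum_apply]
  refine Finset.sum_nonneg fun i _ => ?_
  rw [Finsupp.add_apply, Finsupp.single_apply, Finsupp.single_apply]
  positivity

open Classical in
/-- The faces of the octahedron with opposite vertices `a i`, `b i`. -/
noncomputable def octFace (a b : Fin 3 → V) (ε : Fin 3 → Bool) : Finset V :=
  Finset.univ.image fun i => if ε i then a i else b i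

theorem octCoord_support (a b : Fin 3 → V) (x : E3) :
    (octCoord a b x).support ⊆ octFace a b (fun i => decide (0 < x i)) := by
  classical
  intro v hv
  rw [Finsupp.mem_support_iff] at hv
  unfold octCoord at hv
  rw [Finsupp.finsetSum_apply] at hv
  obtain ⟨i, -, hi⟩ := Finset.exists_ne_zero_of_sum_ne_zero hv
  rw [Finsupp.add_apply, Finsupp.single_apply, Finsupp.single_apply] at hi
  unfold octFace
  rw [Finset.mem_image]
  refine ⟨i, Finset.mem_univ i, ?_⟩
  by_cases hx : 0 < x i
  · simp only [hx, decide_true, if_true]
    by_contra hne
    rw [if_neg hne, max_eq_right (by linarith : -x i ≤ 0)] at hi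
    simp at hi
  · simp only [hx, decide_false]
    push Not at hx
    rw [max_eq_right hx] at hi
    by_contra hne
    simp only [Bool.false_eq_true, if_false] at hne
    rw [if_neg hne] at hi
    simp at hi

/-- The octahedral sphere in the realisation. -/
noncomputable def octSphere (a b : Fin 3 → V) (hoct : ∀ ε, octFace a b ε ∈ K.faces) (x : Octa) :
    Realization K where
  coord := octCoord a b x.1
  nonneg := octCoord_nonneg a b x.1
  sum_eq_one := (octCoord_sum a b x.1).trans x.2
  support_mem := by
    refine (K.isRelLowerSet_faces (hoct _)).2 (octCoord_support a b x.1) ?_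
    by_contra hne
    rw [Finset.not_nonempty_iff_eq_empty, Finsupp.support_eq_empty] at hne
    have h := octCoord_sum a b x.1
    rw [x.2, hne, Finsupp.sum_zero_index] at h
    exact zero_ne_one h

theorem continuous_octSphere (a b : Fin 3 → V) (hoct : ∀ ε, octFace a b ε ∈ K.faces) :
    Continuous (octSphere a b hoct : Octa → Realization K) := by
  classical
  refine Realization.continuous_of_finite (Finset.univ.image a ∪ Finset.univ.image b) ?_ ?_
  · intro x
    refine (octCoord_support a b x.1).trans ?_
    intro v hv
    unfold octFace at hv
    rw [Finset.mem_image] at hv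
    obtain ⟨i, -, rfl⟩ := hv
    rw [Finset.mem_union, Finset.mem_image, Finset.mem_image]
    by_cases h : decide (0 < (x : E3) i) = true
    · left; exact ⟨i, Finset.mem_univ i, by rw [if_pos h]⟩
    · right; exact ⟨i, Finset.mem_univ i, by rw [if_neg h]⟩
  · intro v
    have : (fun x : Octa => (octSphere a b hoct x : Realization K).coord v) = fun x : Octa =>
        ∑ i, ((if a i = v then max ((x : E3) i) 0 else 0)
          + (if b i = v then max (-(x : E3) i) 0 else 0)) := by
      funext x
      change (octCoord a b x.1) v = _
      unfold octCoord
      rw [Finsupp.finsetSum_apply]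
      refine Finset.sum_congr rfl fun i _ => ?_
      rw [Finsupp.add_apply, Finsupp.single_apply, Finsupp.single_apply]
    rw [this]
    refine continuous_finsetSum _ fun i _ => ?_
    have hc : Continuous fun x : Octa => (x : E3) i := by fun_prop
    refine Continuous.add ?_ ?_
    · split_ifs
      · exact hc.max continuous_const
      · exact continuous_const
    · split_ifs
      · exact hc.neg.max continuous_const
      · exact continuous_const

end sphere

/-- The affine extension of `g` has values in the convex hull of the image of the support. -/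
theorem sum_smul_mem_convexHull {V : Type*} {K : PreAbstractSimplicialComplex V}
    (w : Realization K) (g : V → E3) :
    (w.coord.sum fun v t => t • g v) ∈ convexHull ℝ (g '' (w.coord.support : Set V)) := by
  rw [Finsupp.sum]
  refine (convex_convexHull ℝ _).sum_mem (fun v _ => w.nonneg v) w.sum_eq_one ?_
  intro v hv
  exact subset_convexHull ℝ _ (mem_image_of_mem g hv)

theorem height_sum_pos {V : Type*} {K : PreAbstractSimplicialComplex V}
    (w : Realization K) (g : V → E3) (h : ∀ v, w.coord v ≠ 0 → 0 < height (g v)) :
    0 < height (w.coord.sum fun v t => t • g v) := by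
  rw [Finsupp.sum, height_sum]
  have hne : w.coord.support.Nonempty := (K.isRelLowerSet_faces w.support_mem).1
  refine Finset.sum_pos ?_ hne
  intro v hv
  rw [height_smul]
  have h1 : w.coord v ≠ 0 := Finsupp.mem_support_iff.mp hv
  have h2 : 0 < w.coord v := lt_of_le_of_ne (w.nonneg v) (Ne.symm h1)
  exact mul_pos h2 (h v h1)

/-- **Octahedron criterion.** Suppose that for each `k` there is a vertex map `g k` into
Euclidean three-space whose affine extension avoids the origin, which takes positive heights
outside a set `L k` of vertices, every vertex lying in finitely many `L k`, and an octahedron in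
`K` which `g k` maps onto the standard octahedron.  Then the realisation of `K` is not homotopy
equivalent to any compact space. -/
theorem not_homotopyEquiv_of_octahedra {V : Type*} (K : PreAbstractSimplicialComplex V)
    (g : ℕ → V → E3) (L : ℕ → Set V) (hL : ∀ v, {k | v ∈ L k}.Finite)
    (hg : ∀ k, ∀ σ ∈ K.faces, (0 : E3) ∉ convexHull ℝ (g k '' (σ : Set V)))
    (hpos : ∀ k v, v ∉ L k → 0 < height (g k v))
    (a b : ℕ → Fin 3 → V)
    (ha : ∀ k i, g k (a k i) = EuclideanSpace.single i 1)
    (hb : ∀ k i, g k (b k i) = - EuclideanSpace.single i 1)
    (hoct : ∀ k ε, octFace (a k) (b k) ε ∈ K.faces)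
    (Z : Type*) [TopologicalSpace Z] [CompactSpace Z] :
    ¬ Nonempty (ContinuousMap.HomotopyEquiv Z (Realization K)) := by
  classical
  rintro ⟨e⟩
  have hC : IsCompact (range e.toFun) := isCompact_range e.toFun.continuous
  have hS := Realization.finite_vertices_of_isCompact hC
  set S := {v : V | ∃ w ∈ range e.toFun, w.coord v ≠ 0} with hSdef
  obtain ⟨k, hk⟩ : ∃ k, ∀ v ∈ S, v ∉ L k := by
    have hfin : (⋃ v ∈ S, {k | v ∈ L k}).Finite := hS.biUnion fun v _ => hL v
    obtain ⟨k, hk⟩ := hfin.exists_notMem
    refine ⟨k, fun v hv hvL => hk ?_⟩
    exact mem_biUnion hv hvL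
  -- the map to the punctured space
  let G : C(Realization K, Punct) :=
    { toFun := fun w => ⟨w.coord.sum fun v t => t • g k v, fun h => by
        have h1 := sum_smul_mem_convexHull w (g k)
        rw [h] at h1
        exact hg k _ w.support_mem h1⟩
      continuous_toFun := Continuous.subtype_mk (Realization.continuous_sum_smul (g k)) _ }
  let s : C(Octa, Realization K) :=
    { toFun := octSphere (a k) (b k) (hoct k)
      continuous_toFun := continuous_octSphere (a k) (b k) (hoct k) }
  have hGs : G.comp s = octaIncl := by
    ext1 x
    apply Subtype.ext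
    change ((octCoord (a k) (b k) x.1).sum fun v t => t • g k v) = x.1
    rw [octCoord_sum_smul]
    simp only [ha, hb]
    ext j
    have h1 : ∀ i : Fin 3, (max ((x : E3) i) 0 • EuclideanSpace.single i (1 : ℝ)
        + max (-(x : E3) i) 0 • -EuclideanSpace.single i (1 : ℝ) : E3)
        = EuclideanSpace.single i ((x : E3) i) := by
      intro i
      rw [smul_neg, ← sub_eq_add_neg, ← sub_smul, max_sub_max]
      ext l
      simp
    simp only [h1]
    fin_cases j <;> simp [Fin.sum_univ_three]
  -- the other end of the homotopy has positive heights
  let ρ : C(Realization K, Realization K) := e.toFun.comp e.invFun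
  have hρ : ρ.Homotopic (ContinuousMap.id _) := e.right_inv
  have h1 : octaIncl.Homotopic (G.comp (ρ.comp s)) := by
    have h2 : (G.comp ((ContinuousMap.id _).comp s)).Homotopic (G.comp (ρ.comp s)) :=
      (ContinuousMap.Homotopic.refl G).comp (hρ.symm.comp (ContinuousMap.Homotopic.refl s))
    rwa [ContinuousMap.id_comp, hGs] at h2
  have hheight : ∀ x, 0 < height ((G.comp (ρ.comp s)) x).1 := by
    intro x
    refine height_sum_pos (ρ (s x)) (g k) ?_
    intro v hv
    exact hpos k v (hk v ⟨ρ (s x), ⟨e.invFun (s x), rfl⟩, hv⟩)
  refine octaIncl_not_nullhomotopic ?_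
  -- straight-line homotopy
  let q : E3 := -(EuclideanSpace.single 0 1 + EuclideanSpace.single 1 1 + EuclideanSpace.single 2 1)
  have hq : 0 < height q := by
    simp [height, q]
    norm_num
  have hne : ∀ (y : E3), 0 < height y → y ≠ 0 := by
    intro y hy h
    rw [h, height_zero] at hy
    exact lt_irrefl _ hy
  refine ⟨⟨q, hne q hq⟩, h1.trans ⟨?_⟩⟩
  exact
    { toFun := fun p => ⟨(1 - (p.1 : ℝ)) • ((G.comp (ρ.comp s)) p.2).1 + (p.1 : ℝ) • q, by
        apply hne
        rw [height_add, height_smul, height_smul]
        have h2 := hheight p.2
        have h3 := p.1.2.1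
        have h4 := p.1.2.2
        rcases h3.lt_or_eq with h5 | h5
        · have : 0 ≤ (1 - (p.1 : ℝ)) * height ((G.comp (ρ.comp s)) p.2).1 :=
            mul_nonneg (by linarith) h2.le
          have : 0 < (p.1 : ℝ) * height q := mul_pos h5 hq
          linarith
        · rw [← h5]
          simpa using h2⟩
      continuous_toFun := by
        refine Continuous.subtype_mk ?_ _
        have hc1 : Continuous fun p : unitInterval × Octa => (p.1 : ℝ) :=
          continuous_subtype_val.comp continuous_fst
        refine Continuous.add ?_ ?_
        · refine Continuous.smul (continuous_const.sub hc1) ?_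
          exact continuous_subtype_val.comp ((G.comp (ρ.comp s)).continuous.comp continuous_snd)
        · exact Continuous.smul hc1 continuous_const
      map_zero_left := by
        intro x
        apply Subtype.ext
        simp
      map_one_left := by
        intro x
        apply Subtype.ext
        simp }

end Pool.Agent.Work.MP_bc4532_gt
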