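import Mathlib

/-!
# Definitions: Vietoris–Rips complexes and geometric realisations

* `VR Y r` is the Vietoris–Rips complex `VR_<(Y; r)` (strict inequality).
* `Realization K` is the geometric realisation of the simplicial complex `K`, with its usual
  (weak) topology.
-/

open Set Topology

namespace Pool.Agent.Work.MP_bc4532_gt

/-- The Vietoris–Rips complex `VR_<(Y; r)`: the simplicial complex whose simplices are the
nonempty finite subsets of `Y` of diameter (strictly) less than `r`. -/
def VR (Y : Type*) [PseudoMetricSpace Y] (r : ℝ) : PreAbstractSimplicialComplex Y where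
  faces := {σ | σ.Nonempty ∧ Metric.diam (σ : Set Y) < r}
  isRelLowerSet_faces := fun σ hσ => ⟨hσ.1, fun _ hτ hne => ⟨hne,
    lt_of_le_of_lt (Metric.diam_mono (Finset.coe_subset.mpr hτ) σ.finite_toSet.isBounded) hσ.2⟩⟩

/-- The geometric realisation of a simplicial complex `K` with vertices in `V`: its points are
the finitely supported functions `V → ℝ` (barycentric coordinates) with nonnegative values of
sum `1` whose support is a simplex of `K`. -/
@[ext]
structure Realization {V : Type*} (K : PreAbstractSimplicialComplex V) where
  /-- the barycentric coordinates -/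
  coord : V →₀ ℝ
  nonneg : ∀ v, 0 ≤ coord v
  sum_eq_one : (coord.sum fun _ a => a) = 1
  support_mem : coord.support ∈ K.faces

namespace Realization

variable {V : Type*} {K : PreAbstractSimplicialComplex V}

open Classical in
/-- A function on the finite set `σ`, extended by zero to a finitely supported function. -/
noncomputable def extendZero (σ : Finset V) (x : σ → ℝ) : V →₀ ℝ :=
  Finsupp.onFinset σ (fun v => if h : v ∈ σ then x ⟨v, h⟩ else 0)
    (fun v hv => by
      by_contra h
      exact hv (by simp [h]))

theorem extendZero_apply {σ : Finset V} {x : σ → ℝ} {v : V} (hv : v ∈ σ) :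
    extendZero σ x v = x ⟨v, hv⟩ := by
  classical
  simp [extendZero, hv]

theorem extendZero_apply_of_notMem {σ : Finset V} {x : σ → ℝ} {v : V} (hv : v ∉ σ) :
    extendZero σ x v = 0 := by
  classical
  simp [extendZero, hv]

theorem extendZero_support_subset (σ : Finset V) (x : σ → ℝ) :
    (extendZero σ x).support ⊆ σ := by
  classical
  exact Finsupp.support_onFinset_subset

theorem extendZero_nonneg {σ : Finset V} {x : σ → ℝ} (hx : ∀ v, 0 ≤ x v) (v : V) :
    0 ≤ extendZero σ x v := by
  by_cases h : v ∈ σ
  · rw [extendZero_apply h]; exact hx _
  · rw [extendZero_apply_of_notMem h]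

theorem extendZero_sum {σ : Finset V} (x : σ → ℝ) :
    ((extendZero σ x).sum fun _ a => a) = ∑ v, x v := by
  rw [Finsupp.sum_of_support_subset _ (extendZero_support_subset σ x) _ (fun _ _ => rfl),
    ← Finset.sum_coe_sort σ]
  refine Finset.sum_congr rfl fun v _ => ?_
  rw [extendZero_apply v.2]

theorem extendZero_support_nonempty {σ : Finset V} {x : σ → ℝ} (hx : ∑ v, x v = 1) :
    (extendZero σ x).support.Nonempty := by
  by_contra hne
  rw [Finset.not_nonempty_iff_eq_empty, Finsupp.support_eq_empty] at hne
  have h := extendZero_sum x
  rw [hx, hne, Finsupp.sum_zero_index] at h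
  exact zero_ne_one h

/-- The characteristic map of a simplex `σ` of `K`: it sends a point of the standard simplex with
vertex set `σ` to the point of the realisation with the same barycentric coordinates. -/
noncomputable def ofFace (K : PreAbstractSimplicialComplex V) (σ : K.faces)
    (x : stdSimplex ℝ (σ : Finset V)) : Realization K where
  coord := extendZero (σ : Finset V) x.1
  nonneg := extendZero_nonneg x.2.1
  sum_eq_one := (extendZero_sum x.1).trans x.2.2
  support_mem := (K.isRelLowerSet_faces σ.2).2 (extendZero_support_subset _ _)
      (extendZero_support_nonempty x.2.2)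

/-- The weak topology on the geometric realisation: a set is open if and only if its preimage in
every closed simplex is open. -/
noncomputable instance : TopologicalSpace (Realization K) :=
  ⨆ σ : K.faces, TopologicalSpace.coinduced (ofFace K σ) inferInstance

end Realization

end Pool.Agent.Work.MP_bc4532_gt
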