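import Pool.Agent.Work.MP_bc4532_gt.Defs

/-!
# Geometric realisation of a simplicial complex, with the weak topology
-/

open Set Topology

namespace Pool.Agent.Work.MP_bc4532_gt

namespace Realization

variable {V : Type*} {K : PreAbstractSimplicialComplex V}

theorem ofFace_apply (σ : K.faces) (x : stdSimplex ℝ (σ : Finset V)) {v : V}
    (hv : v ∈ (σ : Finset V)) : (ofFace K σ x).coord v = x.1 ⟨v, hv⟩ :=
  extendZero_apply hv

theorem ofFace_apply_of_notMem (σ : K.faces) (x : stdSimplex ℝ (σ : Finset V)) {v : V}
    (hv : v ∉ (σ : Finset V)) : (ofFace K σ x).coord v = 0 :=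
  extendZero_apply_of_notMem hv

theorem continuous_iff {Z : Type*} [TopologicalSpace Z] {f : Realization K → Z} :
    Continuous f ↔ ∀ σ : K.faces, Continuous (f ∘ ofFace K σ) := by
  rw [continuous_iSup_dom]
  simp only [continuous_coinduced_dom]

theorem continuous_ofFace (σ : K.faces) : Continuous (ofFace K σ) := by
  rw [continuous_iff_coinduced_le]
  exact le_iSup (fun σ : K.faces => TopologicalSpace.coinduced (ofFace K σ) inferInstance) σ

/-- Barycentric coordinates of a point with respect to a face containing its support. -/
def coords (σ : Finset V) (w : Realization K) (h : w.coord.support ⊆ σ) : stdSimplex ℝ σ :=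
  ⟨fun v => w.coord v, fun v => w.nonneg v, by
    have h2 := w.sum_eq_one
    rw [Finsupp.sum_of_support_subset _ h _ (fun _ _ => rfl), ← Finset.sum_coe_sort σ] at h2
    exact h2⟩

theorem ofFace_coords (σ : K.faces) (w : Realization K) (h : w.coord.support ⊆ (σ : Finset V)) :
    ofFace K σ (coords (σ : Finset V) w h) = w := by
  apply Realization.ext
  ext v
  by_cases hv : v ∈ (σ : Finset V)
  · rw [ofFace_apply σ _ hv]; rfl
  · rw [ofFace_apply_of_notMem σ _ hv]
    by_contra hne
    exact hv (h (Finsupp.mem_support_iff.mpr (Ne.symm hne)))

/-- Every point lies in the image of the characteristic map of its support. -/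
theorem exists_ofFace (w : Realization K) : ∃ (σ : K.faces) (x : stdSimplex ℝ (σ : Finset V)),
    ofFace K σ x = w :=
  ⟨⟨w.coord.support, w.support_mem⟩, coords _ w subset_rfl, ofFace_coords _ w _⟩

/-- Barycentric coordinates are continuous. -/
theorem continuous_apply (v : V) : Continuous fun w : Realization K => w.coord v := by
  rw [continuous_iff]
  intro σ
  by_cases hv : v ∈ (σ : Finset V)
  · have : ((fun w : Realization K => w.coord v) ∘ ofFace K σ) = fun x => x.1 ⟨v, hv⟩ := by
      funext x; exact ofFace_apply σ x hv
    rw [this]
    exact (_root_.continuous_apply _).comp continuous_subtype_val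
  · have : ((fun w : Realization K => w.coord v) ∘ ofFace K σ) = fun x => 0 := by
      funext x; exact ofFace_apply_of_notMem σ x hv
    rw [this]
    exact continuous_const

theorem ofFace_sum_smul {W : Type*} [AddCommMonoid W] [Module ℝ W] (g : V → W) (σ : K.faces)
    (x : stdSimplex ℝ (σ : Finset V)) :
    ((ofFace K σ x).coord.sum fun v a => a • g v) = ∑ v : (σ : Finset V), x.1 v • g v := by
  have h1 : (ofFace K σ x).coord.support ⊆ (σ : Finset V) :=
    extendZero_support_subset (σ : Finset V) x.1
  rw [Finsupp.sum_of_support_subset _ h1 (fun v a => a • g v)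
    (fun v _ => zero_smul ℝ (g v)), ← Finset.sum_coe_sort (σ : Finset V)]
  refine Finset.sum_congr rfl fun v _ => ?_
  rw [ofFace_apply σ x v.2]

/-- The affine extension of any map defined on the vertices is continuous. -/
theorem continuous_sum_smul {W : Type*} [AddCommMonoid W] [Module ℝ W] [TopologicalSpace W]
    [ContinuousAdd W] [ContinuousSMul ℝ W] (g : V → W) :
    Continuous fun w : Realization K => w.coord.sum fun v a => a • g v := by
  rw [continuous_iff]
  intro σ
  have : ((fun w : Realization K => w.coord.sum fun v a => a • g v) ∘ ofFace K σ)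
      = fun x => ∑ v : (σ : Finset V), x.1 v • g v := by
    funext x; exact ofFace_sum_smul g σ x
  rw [this]
  refine continuous_finsetSum _ fun v _ => ?_
  exact ((_root_.continuous_apply _).comp continuous_subtype_val).smul continuous_const

/-- A compact subset of the realisation meets only finitely many open stars of vertices. -/
theorem finite_vertices_of_isCompact {C : Set (Realization K)} (hC : IsCompact C) :
    {v : V | ∃ w ∈ C, w.coord v ≠ 0}.Finite := by
  classical
  by_contra hinf
  have hinf' : {v : V | ∃ w ∈ C, w.coord v ≠ 0}.Infinite := hinf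
  let f := hinf'.natEmbedding
  choose w hwC hw0 using fun n => (f n).2
  -- weights: at the `n`-th chosen vertex put `n / w n (f n)`
  let c : V → ℝ := fun v =>
    if h : ∃ n, (f n : V) = v then (h.choose : ℝ) / (w h.choose).coord v else 0
  have hc : ∀ n, c (f n) = n / (w n).coord (f n) := by
    intro n
    have h : ∃ m, (f m : V) = f n := ⟨n, rfl⟩
    have h2 : h.choose = n := f.injective (Subtype.ext h.choose_spec)
    simp only [c, dif_pos h]
    rw [h2]
  have hc0 : ∀ v, 0 ≤ c v := by
    intro v
    by_cases h : ∃ n, (f n : V) = v
    · simp only [c, dif_pos h]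
      exact div_nonneg (Nat.cast_nonneg _) ((w _).nonneg _)
    · simp only [c, dif_neg h]; exact le_rfl
  have hcont := continuous_sum_smul (K := K) (W := ℝ) c
  obtain ⟨B, hB⟩ := hC.exists_bound_of_continuousOn hcont.continuousOn
  obtain ⟨n, hn⟩ := exists_nat_gt B
  have h1 := hB (w n) (hwC n)
  have h2 : (n : ℝ) ≤ (w n).coord.sum fun v a => a • c v := by
    have h3 : (f n : V) ∈ (w n).coord.support := Finsupp.mem_support_iff.mpr (hw0 n)
    have h4 : (w n).coord (f n) • c (f n) ≤ (w n).coord.sum fun v a => a • c v := by
      rw [Finsupp.sum]
      refine Finset.single_le_sum (f := fun v => (w n).coord v • c v) ?_ h3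
      intro v _
      exact mul_nonneg ((w n).nonneg v) (hc0 v)
    rw [hc n, smul_eq_mul, mul_div_cancel₀] at h4
    · exact h4
    · exact hw0 n
  rw [Real.norm_eq_abs] at h1
  have h5 := le_abs_self ((w n).coord.sum fun v a => a • c v)
  linarith

/-- A complex on a finite vertex set has compact realisation. -/
instance [Finite V] : CompactSpace (Realization K) := by
  classical
  have : (univ : Set (Realization K)) = ⋃ σ : K.faces, range (ofFace K σ) := by
    ext w
    simp only [mem_univ, mem_iUnion, mem_range, true_iff]
    exact exists_ofFace w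
  refine ⟨?_⟩
  rw [this]
  have _ : Finite (Finset V) := inferInstance
  have _ : Finite K.faces := inferInstance
  exact isCompact_iUnion fun σ => isCompact_range (continuous_ofFace σ)

/-- A map into the realisation which only involves finitely many vertices and has continuous
barycentric coordinates is continuous. -/
theorem continuous_of_finite {Z : Type*} [TopologicalSpace Z] {s : Z → Realization K}
    (F : Finset V) (hF : ∀ z, (s z).coord.support ⊆ F)
    (hc : ∀ v, Continuous fun z => (s z).coord v) : Continuous s := by
  classical
  let ι := {σ : K.faces // (σ : Finset V) ⊆ F}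
  have hfin : Finite ι := by
    have : Finite {σ : Finset V // σ ⊆ F} := by
      have : {σ : Finset V | σ ⊆ F} = (F.powerset : Set (Finset V)) := by
        ext; simp
      exact (this ▸ F.powerset.finite_toSet : {σ : Finset V | σ ⊆ F}.Finite)
    exact Finite.of_injective (fun σ : ι => (⟨σ.1.1, σ.2⟩ : {σ : Finset V // σ ⊆ F}))
      (by
        intro a b hab
        exact Subtype.ext (Subtype.ext (congrArg (fun σ => σ.1) hab)))
  let A : ι → Set Z := fun σ => {z | (s z).coord.support ⊆ (σ.1 : Finset V)}
  have hcov : ⋃ i, A i = univ := by
    ext z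
    simp only [mem_iUnion, mem_univ, iff_true]
    exact ⟨⟨⟨(s z).coord.support, (s z).support_mem⟩, hF z⟩,
      (fun v hv => hv : (s z).coord.support ⊆ (s z).coord.support)⟩
  have hcl : ∀ i, IsClosed (A i) := by
    intro i
    have : A i = ⋂ v ∈ {v | v ∉ (i.1 : Finset V)}, {z | (s z).coord v = 0} := by
      ext z
      simp only [A, mem_iInter, mem_ofPred_eq]
      constructor
      · intro h v hv
        by_contra hne
        exact hv (h (Finsupp.mem_support_iff.mpr hne))
      · intro h v hv
        by_contra hne
        exact (Finsupp.mem_support_iff.mp hv) (h v hne)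
    rw [this]
    exact isClosed_biInter fun v _ => isClosed_eq (hc v) continuous_const
  refine (locallyFinite_of_finite A).continuous hcov hcl ?_
  intro i
  rw [continuousOn_iff_continuous_domRestrict]
  have : (A i).domRestrict s = fun z : A i => ofFace K i.1 (coords (i.1 : Finset V) (s z) z.2) := by
    funext z
    exact (ofFace_coords i.1 (s z) z.2).symm
  rw [this]
  refine (continuous_ofFace i.1).comp ?_
  refine Continuous.subtype_mk ?_ _
  refine continuous_pi fun v => ?_
  exact (hc v).comp continuous_subtype_val

end Realization

end Pool.Agent.Work.MP_bc4532_gt
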