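import Pool.Agent.Work.MP_bc4532_gt.NoRetract
import Pool.Agent.Work.MP_bc4532_gt.Realization

/-!
# An octahedron criterion for essential spheres in a simplicial complex
-/

open Set Topology

namespace Pool.Agent.Work.MP_bc4532_gt

/-- Euclidean three-space. -/
abbrev E3 := EuclideanSpace ℝ (Fin 3)

/-- The `ℓ¹` norm on Euclidean three-space. -/
noncomputable def l1 (x : E3) : ℝ := ∑ i, |x i|

theorem continuous_l1 : Continuous l1 := by
  unfold l1
  fun_prop

theorem l1_smul (c : ℝ) (x : E3) : l1 (c • x) = |c| * l1 x := by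
  simp [l1, abs_mul, Finset.mul_sum]

theorem l1_nonneg (x : E3) : 0 ≤ l1 x := Finset.sum_nonneg fun _ _ => abs_nonneg _

theorem l1_eq_zero {x : E3} (h : l1 x = 0) : x = 0 := by
  have h1 := (Finset.sum_eq_zero_iff_of_nonneg (fun i _ => abs_nonneg (x i))).mp h
  ext i
  exact abs_eq_zero.mp (h1 i (Finset.mem_univ i))

theorem l1_zero : l1 0 = 0 := by simp [l1]

theorem norm_le_l1 (x : E3) : ‖x‖ ≤ l1 x := by
  rw [EuclideanSpace.norm_eq]
  apply Real.sqrt_le_iff.mpr
  refine ⟨l1_nonneg x, ?_⟩
  simp only [l1, Fin.sum_univ_three, Real.norm_eq_abs]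
  have h0 := abs_nonneg (x 0)
  have h1 := abs_nonneg (x 1)
  have h2 := abs_nonneg (x 2)
  nlinarith [mul_nonneg h0 h1, mul_nonneg h1 h2, mul_nonneg h0 h2]

/-- The boundary of the octahedron. -/
abbrev Octa : Type := {x : E3 // l1 x = 1}

/-- The punctured space. -/
abbrev Punct : Type := {x : E3 // x ≠ 0}

theorem Octa.ne_zero (x : Octa) : (x : E3) ≠ 0 := by
  intro h
  have h1 := x.2
  rw [h, l1_zero] at h1
  exact zero_ne_one h1

/-- The inclusion of the octahedron boundary in the punctured space. -/
def octaIncl : C(Octa, Punct) where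
  toFun x := ⟨x.1, x.ne_zero⟩
  continuous_toFun := Continuous.subtype_mk continuous_subtype_val _

theorem octaIncl_not_nullhomotopic : ¬ octaIncl.Nullhomotopic := by
  classical
  rintro ⟨c, ⟨H⟩⟩
  -- radial map
  have hpos : ∀ x : E3, x ≠ 0 → 0 < l1 x := by
    intro x hx
    rcases (l1_nonneg x).lt_or_eq with h | h
    · exact h
    · exact absurd (l1_eq_zero h.symm) hx
  let dir : {x : E3 // x ≠ 0} → Octa := fun x => ⟨(l1 x.1)⁻¹ • x.1, by
    rw [l1_smul, abs_of_pos (inv_pos.mpr (hpos x.1 x.2)), inv_mul_cancel₀ (hpos x.1 x.2).ne']⟩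
  have hdir : Continuous dir := by
    refine Continuous.subtype_mk ?_ _
    exact ((continuous_l1.comp continuous_subtype_val).inv₀
      (fun x => (hpos x.1 x.2).ne')).smul continuous_subtype_val
  let tt : E3 → unitInterval := fun x => Set.projIcc 0 1 zero_le_one (2 - 2 * l1 x)
  have htt : Continuous tt :=
    continuous_projIcc.comp (continuous_const.sub (continuous_const.mul continuous_l1))
  let F1 : {x : E3 // x ≠ 0} → E3 := fun x => (H (tt x.1, dir x)).1
  have hF1 : Continuous F1 :=
    continuous_subtype_val.comp (H.continuous.comp ((htt.comp continuous_subtype_val).prodMk hdir))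
  let F2 : E3 → E3 := fun x => if hx : x ≠ 0 then F1 ⟨x, hx⟩ else c.1
  let F : E3 → E3 := fun x => (max 1 (l1 x)) • F2 x
  have hF2c : Continuous F2 := by
    rw [continuous_iff_continuousAt]
    intro x
    by_cases hx : x = 0
    · -- locally constant near zero
      subst hx
      have hev : ∀ᶠ y in 𝓝 (0 : E3), F2 y = c.1 := by
        have h1 : ∀ᶠ y in 𝓝 (0 : E3), l1 y < 1 / 2 := by
          have := continuous_l1.continuousAt (x := (0 : E3))
          apply this.eventually_lt_const
          rw [l1_zero]; norm_num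
        filter_upwards [h1] with y hy
        by_cases hy0 : y = 0
        · simp [F2, hy0]
        · have h2 : tt y = 1 := by
            apply Subtype.ext
            simp only [tt, Set.coe_projIcc]
            have : (1 : ℝ) ≤ 2 - 2 * l1 y := by linarith
            rw [min_eq_left this]
            simp
          simp only [F2, dif_pos hy0, F1, h2]
          rw [H.apply_one]
          rfl
      refine ContinuousAt.congr continuousAt_const (f := fun _ => c.1) ?_
      filter_upwards [hev] with y hy using hy.symm
    · have hopen : IsOpen {y : E3 | y ≠ 0} := isOpen_ne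
      have h1 : ContinuousOn F2 {y : E3 | y ≠ 0} := by
        rw [continuousOn_iff_continuous_domRestrict]
        have : ({y : E3 | y ≠ 0}).domRestrict F2 = F1 := by
          funext y
          have hy : (y : E3) ≠ 0 := y.2
          simp only [Set.domRestrict_apply, F2, dif_pos hy]
          rfl
        rw [this]
        exact hF1
      exact h1.continuousAt (hopen.mem_nhds hx)
  have hF : Continuous F := (continuous_const.max continuous_l1).smul hF2c
  have hFid : ∀ x, 1 ≤ ‖x‖ → F x = x := by
    intro x hx
    have h1 : 1 ≤ l1 x := hx.trans (norm_le_l1 x)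
    have hx0 : x ≠ 0 := by
      intro h
      rw [h, norm_zero] at hx
      linarith
    have h2 : tt x = 0 := by
      apply Subtype.ext
      simp only [tt, Set.coe_projIcc]
      have h3 : 2 - 2 * l1 x ≤ 0 := by linarith
      rw [min_eq_right (by linarith), max_eq_left h3]
      rfl
    simp only [F, F2, dif_pos hx0, F1, h2]
    rw [H.apply_zero, max_eq_right h1]
    have h4 : ((octaIncl (dir ⟨x, hx0⟩) : Punct) : E3) = (l1 x)⁻¹ • x := rfl
    rw [h4, smul_smul, mul_inv_cancel₀ (by linarith), one_smul]
  obtain ⟨x, hx⟩ := exists_zero_of_id_outside hF hFid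
  have h1 : (0 : ℝ) < max 1 (l1 x) := lt_max_of_lt_left one_pos
  have h2 : F2 x = 0 := by
    rcases smul_eq_zero.mp hx with h | h
    · exact absurd h h1.ne'
    · exact h
  by_cases hx0 : x = 0
  · simp only [F2, hx0, ne_eq, not_true_eq_false, dite_false] at h2
    exact c.2 h2
  · have h3 : F2 x = F1 ⟨x, hx0⟩ := by simp only [F2, dif_pos (show x ≠ 0 from hx0)]
    rw [h3] at h2
    exact (H (tt x, dir ⟨x, hx0⟩)).2 h2

end Pool.Agent.Work.MP_bc4532_gt
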