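import Pool.Agent.Work.MP_bc4532_gt.Necks

/-!
# The Vietoris–Rips complex of the necked torus
-/

open Bundle Topology Bornology Set MeasureTheory Manifold Filter
open scoped Manifold ContDiff ENNReal

noncomputable section

namespace Pool.Agent.Work.MP_bc4532_gt

/-- Angles of the three cube roots of unity. -/
def bet (i : Fin 3) : ℝ := ![0, 2 * Real.pi / 3, -(2 * Real.pi / 3)] i

theorem cos_two_pi_div_three : Real.cos (2 * Real.pi / 3) = -1 / 2 := by
  have : 2 * Real.pi / 3 = Real.pi - Real.pi / 3 := by ring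
  rw [this, Real.cos_pi_sub, Real.cos_pi_div_three]; norm_num

theorem sin_two_pi_div_three : Real.sin (2 * Real.pi / 3) = √3 / 2 := by
  have : 2 * Real.pi / 3 = Real.pi - Real.pi / 3 := by ring
  rw [this, Real.sin_pi_sub, Real.sin_pi_div_three]

theorem coe_exp_bet (i : Fin 3) : ((Circle.exp (bet i) : Circle) : ℂ) = omega i := by
  rw [Circle.coe_exp]
  apply Complex.ext
  · rw [Complex.exp_ofReal_mul_I_re]
    fin_cases i
    · simp [bet, omega]
    · simp only [bet, omega]
      exact cos_two_pi_div_three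
    · simp only [bet, omega]
      change Real.cos (-(2 * Real.pi / 3)) = -1 / 2
      rw [Real.cos_neg, cos_two_pi_div_three]
  · rw [Complex.exp_ofReal_mul_I_im]
    fin_cases i
    · simp [bet, omega]
    · simp only [bet, omega]
      exact sin_two_pi_div_three
    · simp only [bet, omega]
      change Real.sin (-(2 * Real.pi / 3)) = -(√3 / 2)
      rw [Real.sin_neg, sin_two_pi_div_three]

theorem coe_exp_bet_add_pi (i : Fin 3) :
    ((Circle.exp (bet i + Real.pi) : Circle) : ℂ) = -omega i := by
  rw [Circle.exp_add, Circle.coe_mul, coe_exp_bet, Circle.coe_exp, Complex.exp_pi_mul_I]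
  ring

theorem exp_shift {x y : ℝ} (n : ℤ) (h : x = y + n * (2 * Real.pi)) :
    Circle.exp x = Circle.exp y := by
  rw [h]
  exact Circle.periodic_exp.int_mul n y

/-- Angle differences between cube roots of unity. -/
theorem exists_angle (i j : Fin 3) : ∃ α : ℝ, |α| ≤ 2 * Real.pi / 3 ∧
    ∀ c : ℝ, Circle.exp (bet j + c) = Circle.exp (bet i + c) * Circle.exp α := by
  have hpi := Real.pi_pos
  have key : ∀ (α : ℝ) (n : ℤ), bet j = bet i + α + n * (2 * Real.pi) →
      ∀ c : ℝ, Circle.exp (bet j + c) = Circle.exp (bet i + c) * Circle.exp α := by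
    intro α n h c
    rw [← Circle.exp_add]
    apply exp_shift n
    rw [h]; ring
  have h0 : |(0 : ℝ)| ≤ 2 * Real.pi / 3 := by rw [abs_zero]; positivity
  have h1 : |2 * Real.pi / 3| ≤ 2 * Real.pi / 3 := by rw [abs_of_pos (by positivity)]
  have h2 : |-(2 * Real.pi / 3)| ≤ 2 * Real.pi / 3 := by rw [abs_neg, abs_of_pos (by positivity)]
  fin_cases i <;> fin_cases j
  · exact ⟨0, h0, key 0 0 (by simp [bet])⟩
  · exact ⟨_, h1, key _ 0 (by simp [bet])⟩
  · exact ⟨_, h2, key _ 0 (by simp [bet])⟩
  · exact ⟨_, h2, key _ 0 (by simp [bet])⟩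
  · exact ⟨0, h0, key 0 0 (by simp [bet])⟩
  · exact ⟨_, h1, key _ (-1) (by simp [bet]; ring)⟩
  · exact ⟨_, h1, key _ 0 (by simp [bet])⟩
  · exact ⟨_, h2, key _ 1 (by simp [bet]; ring)⟩
  · exact ⟨0, h0, key 0 0 (by simp [bet])⟩

/-- Angle differences between a cube root of unity and the opposite of another one. -/
theorem exists_angle' {i j : Fin 3} (hij : i ≠ j) : ∃ α : ℝ, |α| ≤ Real.pi / 3 ∧
    Circle.exp (bet j + Real.pi) = Circle.exp (bet i) * Circle.exp α := by
  have hpi := Real.pi_pos
  have key : ∀ (α : ℝ) (n : ℤ), bet j + Real.pi = bet i + α + n * (2 * Real.pi) →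
      Circle.exp (bet j + Real.pi) = Circle.exp (bet i) * Circle.exp α := by
    intro α n h
    rw [← Circle.exp_add]
    exact exp_shift n h
  have h1 : |Real.pi / 3| ≤ Real.pi / 3 := by rw [abs_of_pos (by positivity)]
  have h2 : |-(Real.pi / 3)| ≤ Real.pi / 3 := by rw [abs_neg, abs_of_pos (by positivity)]
  fin_cases i <;> fin_cases j
  · exact absurd rfl hij
  · exact ⟨_, h2, key _ 1 (by simp [bet]; ring)⟩
  · exact ⟨_, h1, key _ 0 (by simp [bet]; ring)⟩
  · exact ⟨_, h1, key _ 0 (by simp [bet]; ring)⟩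
  · exact absurd rfl hij
  · exact ⟨_, h2, key _ 0 (by simp [bet]; ring)⟩
  · exact ⟨_, h2, key _ 1 (by simp [bet]; ring)⟩
  · exact ⟨_, h1, key _ 1 (by simp [bet]; ring)⟩
  · exact absurd rfl hij

/-- Height of the `n`-th neck. -/
def tn (n : ℕ) : ℝ := 2 / (2 * (n : ℝ) + 3)

theorem tn_pos (n : ℕ) : 0 < tn n := by unfold tn; positivity

theorem tn_le_one (n : ℕ) : tn n ≤ 1 := by
  unfold tn
  rw [div_le_one (by positivity)]
  have : (0 : ℝ) ≤ n := Nat.cast_nonneg n
  linarith

theorem tendsto_tn : Tendsto tn atTop (𝓝 0) := by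
  unfold tn
  have h1 : Tendsto (fun n : ℕ => 2 * (n : ℝ) + 3) atTop atTop := by
    apply tendsto_atTop_add_const_right
    exact (tendsto_natCast_atTop_atTop).const_mul_atTop two_pos
  exact h1.const_div_atTop 2

/-- Base point of the `n`-th neck. -/
def zn (n : ℕ) : Circle := Circle.exp (Real.arcsin (tn n))

theorem zn_im (n : ℕ) : ((zn n : Circle) : ℂ).im = tn n := by
  unfold zn
  rw [Circle.coe_exp, Complex.exp_ofReal_mul_I_im,
    Real.sin_arcsin (by linarith [tn_pos n]) (tn_le_one n)]

theorem tendsto_zn : Tendsto zn atTop (𝓝 1) := by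
  have h1 : Continuous fun t : ℝ => Circle.exp (Real.arcsin t) :=
    Circle.exp.continuous.comp Real.continuous_arcsin
  have h2 := (h1.tendsto 0).comp tendsto_tn
  rw [Real.arcsin_zero, Circle.exp_zero] at h2
  exact h2

namespace WTorus

variable {P : Profile} (hwall : ∀ n : ℕ, P.h (1 / ((n : ℝ) + 1)) = 0)
  (hneck : ∀ n : ℕ, P.h (2 / (2 * (n : ℝ) + 3)) ≠ 0)

include hneck in
theorem zn_mem (n : ℕ) : zn n ∈ neckSet P := by
  change P.h ((zn n : Circle) : ℂ).im ≠ 0
  rw [zn_im]
  exact hneck n

include hneck in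
theorem rad_zn_lt (n : ℕ) : rad P ((zn n : Circle) : ℂ).im < 1 := by
  have h1 := rad_sq P ((zn n : Circle) : ℂ).im
  have h2 : 0 < P.h ((zn n : Circle) : ℂ).im ^ 2 := by
    rw [zn_im]
    exact lt_of_le_of_ne (sq_nonneg _) (Ne.symm (pow_ne_zero 2 (hneck n)))
  nlinarith [rad_pos P ((zn n : Circle) : ℂ).im]

include hwall hneck in
theorem component_ne {k l : ℕ} (hkl : k < l) :
    connectedComponentIn (neckSet P) (zn k) ≠ connectedComponentIn (neckSet P) (zn l) := by
  intro h
  have h1 : zn l ∈ connectedComponentIn (neckSet P) (zn k) := by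
    rw [h]; exact mem_connectedComponentIn (zn_mem hneck l)
  have h2 : zn k ∈ connectedComponentIn (neckSet P) (zn k) :=
    mem_connectedComponentIn (zn_mem hneck k)
  have hpre : IsPreconnected ((fun w : Circle => (w : ℂ).im) ''
      connectedComponentIn (neckSet P) (zn k)) :=
    isPreconnected_connectedComponentIn.image _
      (Complex.continuous_im.comp continuous_circle_coe).continuousOn
  have h3 : tn l ∈ (fun w : Circle => (w : ℂ).im) '' connectedComponentIn (neckSet P) (zn k) :=
    ⟨zn l, h1, zn_im l⟩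
  have h4 : tn k ∈ (fun w : Circle => (w : ℂ).im) '' connectedComponentIn (neckSet P) (zn k) :=
    ⟨zn k, h2, zn_im k⟩
  have h5 := hpre.Icc_subset h3 h4
  have hk : (0 : ℝ) ≤ k := Nat.cast_nonneg k
  have hkl' : (k : ℝ) + 1 ≤ l := by exact_mod_cast hkl
  have h6 : 1 / (((k + 1 : ℕ) : ℝ) + 1) ∈ Icc (tn l) (tn k) := by
    push_cast
    unfold tn
    constructor
    · rw [div_le_div_iff₀ (by positivity) (by positivity)]
      nlinarith
    · rw [div_le_div_iff₀ (by positivity) (by positivity)]
      nlinarith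
  obtain ⟨w, hw, hw2⟩ := h5 h6
  have h7 : w ∈ neckSet P := connectedComponentIn_subset _ _ hw
  apply h7
  simp only at hw2
  rw [hw2]
  exact hwall (k + 1)

include hwall hneck in
theorem component_injective :
    Function.Injective fun n => connectedComponentIn (neckSet P) (zn n) := by
  intro k l h
  rcases lt_trichotomy k l with h1 | h1 | h1
  · exact absurd h (component_ne hwall hneck h1)
  · exact h1
  · exact absurd h.symm (component_ne hwall hneck h1)

theorem continuous_mk_left (c : Circle) : Continuous fun w : Circle => mk P w c :=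
  (continuous_id.prodMk continuous_const : Continuous fun w : Circle => ((w, c) : Circle × Circle))

theorem tendsto_dist_necks (c : Circle) :
    Tendsto (fun n => dist (mk P (zn n) c) (mk P (zn (n + 1)) c)) atTop (𝓝 0) := by
  have h1 : Tendsto (fun n => mk P (zn n) c) atTop (𝓝 (mk P 1 c)) :=
    ((continuous_mk_left (P := P) c).tendsto 1).comp tendsto_zn
  have h2 : Tendsto (fun n => mk P (zn (n + 1)) c) atTop (𝓝 (mk P 1 c)) :=
    h1.comp (tendsto_add_atTop_nat 1)
  have h3 := h1.dist h2
  rwa [dist_self] at h3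

include hwall hneck in
/-- **The necked torus.** At scale `2π/3` the Vietoris–Rips complex of the necked torus is not
homotopy equivalent to any compact space. -/
theorem VR_not_homotopyEquiv (Z : Type*) [TopologicalSpace Z] [CompactSpace Z] :
    ¬ Nonempty (ContinuousMap.HomotopyEquiv Z
      (Realization (VR (WTorus P) (2 * Real.pi / 3)))) := by
  have hpi := Real.pi_pos
  -- the necks are eventually close to each other
  obtain ⟨K, hK⟩ : ∃ K : ℕ, ∀ n ≥ K, ∀ j : Fin 3,
      dist (mk P (zn n) (Circle.exp (bet j + Real.pi)))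
        (mk P (zn (n + 1)) (Circle.exp (bet j + Real.pi))) < Real.pi / 3 := by
    have h1 : ∀ᶠ n in atTop, ∀ j : Fin 3,
        dist (mk P (zn n) (Circle.exp (bet j + Real.pi)))
          (mk P (zn (n + 1)) (Circle.exp (bet j + Real.pi))) < Real.pi / 3 := by
      rw [eventually_all]
      intro j
      exact (tendsto_dist_necks _).eventually_lt_const (by positivity)
    exact eventually_atTop.mp h1
  have hrad : ∀ n (α : ℝ), |α| ≤ 2 * Real.pi / 3 →
      rad P ((zn n : Circle) : ℂ).im * |α| < 2 * Real.pi / 3 := by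
    intro n α hα
    have h1 := rad_zn_lt hneck n
    have h2 := rad_pos P ((zn n : Circle) : ℂ).im
    have h3 : rad P ((zn n : Circle) : ℂ).im * |α|
        ≤ rad P ((zn n : Circle) : ℂ).im * (2 * Real.pi / 3) :=
      mul_le_mul_of_nonneg_left hα h2.le
    have h4 : (0 : ℝ) < 2 * Real.pi / 3 := by positivity
    nlinarith
  refine (neckSetup P).not_homotopyEquiv
    (fun k i => mk P (zn (k + K)) (Circle.exp (bet i)))
    (fun k i => mk P (zn (k + K + 1)) (Circle.exp (bet i + Real.pi)))
    (fun k => connectedComponentIn (neckSet P) (zn (k + K))) ?_ ?_ ?_ ?_ ?_ ?_ ?_ ?_ Z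
  · intro k l h
    have := component_injective hwall hneck h
    omega
  · intro k i
    rfl
  · intro k i
    exact (component_ne hwall hneck (Nat.lt_succ_self (k + K))).symm
  · intro k i
    exact coe_exp_bet i
  · intro k i
    exact coe_exp_bet_add_pi i
  · intro k i j
    obtain ⟨α, hα, he⟩ := exists_angle i j
    have h1 := he 0
    rw [add_zero, add_zero] at h1
    simp only [h1]
    exact (dist_rotate_le _ _ _).trans_lt (hrad _ _ hα)
  · intro k i j
    obtain ⟨α, hα, he⟩ := exists_angle i j
    have h1 := he Real.pi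
    simp only [h1]
    exact (dist_rotate_le _ _ _).trans_lt (hrad _ _ hα)
  · intro k i j hij
    obtain ⟨α, hα, he⟩ := exists_angle' hij
    have h1 : dist (mk P (zn (k + K)) (Circle.exp (bet i)))
        (mk P (zn (k + K)) (Circle.exp (bet j + Real.pi))) ≤ Real.pi / 3 := by
      rw [he]
      refine (dist_rotate_le _ _ _).trans ?_
      have h2 := rad_zn_lt hneck (k + K)
      have h3 := abs_nonneg α
      nlinarith
    have h2 := hK (k + K) (Nat.le_add_left K k) j
    have h3 := dist_triangle (mk P (zn (k + K)) (Circle.exp (bet i)))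
      (mk P (zn (k + K)) (Circle.exp (bet j + Real.pi)))
      (mk P (zn (k + K + 1)) (Circle.exp (bet j + Real.pi)))
    change dist (mk P (zn (k + K)) (Circle.exp (bet i)))
      (mk P (zn (k + K + 1)) (Circle.exp (bet j + Real.pi))) < _
    linarith

end WTorus

end Pool.Agent.Work.MP_bc4532_gt
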