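import Pool.Agent.Work.MP_bc4532_gt.Bounds

/-!
# The necked torus as a neck setup
-/

open Bundle Topology Bornology Set MeasureTheory Manifold
open scoped Manifold ContDiff ENNReal

noncomputable section

namespace Pool.Agent.Work.MP_bc4532_gt

namespace WTorus

variable {P : Profile}

/-- Short distances are realised by `C¹` curves of short length. -/
theorem exists_curve {p q : WTorus P} {r : ℝ} (h : dist p q < r) :
    ∃ γ : ℝ → WTorus P, ContMDiff 𝓘(ℝ) TI 1 γ ∧ γ 0 = p ∧ γ 1 = q ∧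
      pathELength TI γ 0 1 < ENNReal.ofReal r := by
  have h1 : riemannianEDist TI p q < ENNReal.ofReal r := by
    rw [← edist_eq, edist_dist]
    exact (ENNReal.ofReal_lt_ofReal_iff (lt_of_le_of_lt dist_nonneg h)).mpr h
  obtain ⟨γ, h0, h1, hγ, hl, -, -⟩ :=
    exists_lt_locally_constant_of_riemannianEDist_lt h1 (zero_lt_one (α := ℝ))
  exact ⟨γ, hγ, h0, h1, hl⟩

theorem dist_opp (p y : WTorus P) (h : tc P y = -tc P p) : 2 * Real.pi / 3 ≤ dist p y := by
  by_contra hcon
  push Not at hcon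
  obtain ⟨γ, hγ, h0, h1, hl⟩ := exists_curve hcon
  have h2 : tc P (γ 1) = -tc P (γ 0) := by rw [h0, h1, h]
  have h3 := length_opp hγ h2
  rw [pathELength_eq (contMDiff_emb P) (isInduced P) hγ] at hl
  have h4 : ENNReal.ofReal (3 / 2) * ∫⁻ t in Icc (0 : ℝ) 1, ‖deriv (emb P ∘ γ) t‖ₑ
      < ENNReal.ofReal (3 / 2) * ENNReal.ofReal (2 * Real.pi / 3) :=
    ENNReal.mul_lt_mul_right (by norm_num) ENNReal.ofReal_ne_top hl
  rw [← ENNReal.ofReal_mul (by norm_num)] at h4
  have h5 : (3 / 2 : ℝ) * (2 * Real.pi / 3) = Real.pi := by ring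
  rw [h5] at h4
  exact absurd (h3.trans_lt h4) (lt_irrefl _)

theorem dist_wall (x y : WTorus P) (hP : P.h (zc P x).im = 0) (h : tc P y = -tc P x) :
    Real.pi ≤ dist x y := by
  by_contra hcon
  push Not at hcon
  obtain ⟨γ, hγ, h0, h1, hl⟩ := exists_curve hcon
  have h2 : tc P (γ 1) = -tc P (γ 0) := by rw [h0, h1, h]
  have h3 := length_wall hγ (by rw [h0]; exact hP) h2
  rw [pathELength_eq (contMDiff_emb P) (isInduced P) hγ] at hl
  exact absurd (h3.trans_lt hl) (lt_irrefl _)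

theorem exists_path {p q : WTorus P} {r : ℝ} (h : dist p q < r) :
    ∃ γ : ℝ → WTorus P, Continuous γ ∧ γ 0 = p ∧ γ 1 = q ∧
      ∀ t ∈ Icc (0 : ℝ) 1, dist p (γ t) + dist (γ t) q < r := by
  obtain ⟨γ, hγ, h0, h1, hl⟩ := exists_curve h
  have hr : 0 < r := lt_of_le_of_lt dist_nonneg h
  refine ⟨γ, hγ.continuous, h0, h1, ?_⟩
  intro t ht
  have h2 : edist p (γ t) ≤ pathELength TI γ 0 t := by
    rw [edist_eq, ← h0]
    exact riemannianEDist_le_pathELength hγ.contMDiffOn rfl rfl ht.1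
  have h3 : edist (γ t) q ≤ pathELength TI γ t 1 := by
    rw [edist_eq, ← h1]
    exact riemannianEDist_le_pathELength hγ.contMDiffOn rfl rfl ht.2
  have h4 : edist p (γ t) + edist (γ t) q < ENNReal.ofReal r := by
    refine lt_of_le_of_lt (add_le_add h2 h3) ?_
    rw [pathELength_add ht.1 ht.2]
    exact hl
  rw [edist_dist, edist_dist, ← ENNReal.ofReal_add dist_nonneg dist_nonneg] at h4
  exact (ENNReal.ofReal_lt_ofReal_iff hr).mp h4

/-- The union of the necks. -/
def neckSet (P : Profile) : Set Circle := {w | P.h (w : ℂ).im ≠ 0}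

theorem neckSetup (P : Profile) : NeckSetup (M := WTorus P) (fun p => p.2) (fun p => p.1)
    (neckSet P) (2 * Real.pi / 3) where
  contθ := (continuous_snd : Continuous fun p : Circle × Circle => p.2)
  contz := (continuous_fst : Continuous fun p : Circle × Circle => p.1)
  path p q h := exists_path h
  opp p y h := dist_opp p y h
  wall x y hx h := by
    have h1 : 3 * (2 * Real.pi / 3) / 2 = Real.pi := by ring
    rw [h1]
    refine dist_wall x y ?_ h
    by_contra hne
    exact hx hne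

variable (P) in
/-- The point of the torus with given coordinates. -/
def mk (z w : Circle) : WTorus P := (z, w)

/-- Rotating the second coordinate. -/
theorem dist_rotate_le (z w : Circle) (α : ℝ) :
    dist (mk P z w) (mk P z (w * Circle.exp α)) ≤ rad P (z : ℂ).im * |α| := by
  let γ : ℝ → WTorus P := fun t => mk P z (w * Circle.exp (α * t))
  have hγ : ContMDiff 𝓘(ℝ) TI 1 γ := by
    have h1 : ContMDiff 𝓘(ℝ) (𝓡 1) 1 (fun t : ℝ => w * Circle.exp (α * t)) := by
      refine contMDiff_const.mul ?_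
      have h2 : ContMDiff 𝓘(ℝ) 𝓘(ℝ) 1 (fun t : ℝ => α * t) := by
        rw [contMDiff_iff_contDiff]
        fun_prop
      exact contMDiff_circleExp.comp h2
    exact (contMDiff_const.prodMk h1 : ContMDiff 𝓘(ℝ) TI 1
      (fun t : ℝ => ((z, w * Circle.exp (α * t)) : Circle × Circle)))
  have h0 : γ 0 = mk P z w := by
    simp [γ]
  have h1 : γ 1 = mk P z (w * Circle.exp α) := by
    simp [γ]
  have hder : ∀ t, ‖deriv (emb P ∘ γ) t‖ = rad P (z : ℂ).im * |α| := by
    intro t
    have h2 : HasDerivAt (fun s : ℝ => (w : ℂ) * Complex.exp ((α * s : ℝ) * Complex.I))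
        ((w : ℂ) * (Complex.exp ((α * t : ℝ) * Complex.I) * (α * Complex.I))) t := by
      refine HasDerivAt.const_mul (w : ℂ) ?_
      have h3 : HasDerivAt (fun s : ℝ => ((α * s : ℝ) : ℂ) * Complex.I) (α * Complex.I) t := by
        have h4 : HasDerivAt (fun s : ℝ => α * s) α t := by
          simpa using (hasDerivAt_id t).const_mul α
        exact (h4.ofReal_comp).mul_const Complex.I
      exact h3.cexp
    have h5 : HasDerivAt (fun s : ℝ => (rad P (z : ℂ).im : ℝ) •
        ((w : ℂ) * Complex.exp ((α * s : ℝ) * Complex.I)))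
        ((rad P (z : ℂ).im : ℝ) •
          ((w : ℂ) * (Complex.exp ((α * t : ℝ) * Complex.I) * (α * Complex.I)))) t :=
      h2.const_smul (rad P (z : ℂ).im)
    have h6 := (hasDerivAt_const t (z : ℂ)).prodMk h5
    have h7 : HasDerivAt (emb P ∘ γ) ((WithLp.prodContinuousLinearEquiv 2 ℝ ℂ ℂ).symm
        ((0 : ℂ), (rad P (z : ℂ).im : ℝ) •
          ((w : ℂ) * (Complex.exp ((α * t : ℝ) * Complex.I) * (α * Complex.I))))) t :=
      ((WithLp.prodContinuousLinearEquiv 2 ℝ ℂ ℂ).symm.hasFDerivAt).comp_hasDerivAt t h6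
    rw [h7.deriv]
    have h8 : ‖(WithLp.prodContinuousLinearEquiv 2 ℝ ℂ ℂ).symm
        ((0 : ℂ), (rad P (z : ℂ).im : ℝ) •
          ((w : ℂ) * (Complex.exp ((α * t : ℝ) * Complex.I) * (α * Complex.I))))‖ ^ 2
        = ‖(0 : ℂ)‖ ^ 2 + ‖(rad P (z : ℂ).im : ℝ) •
          ((w : ℂ) * (Complex.exp ((α * t : ℝ) * Complex.I) * (α * Complex.I)))‖ ^ 2 :=
      WithLp.prod_norm_sq_eq_of_L2 _
    have h9 : ‖(rad P (z : ℂ).im : ℝ) •
          ((w : ℂ) * (Complex.exp ((α * t : ℝ) * Complex.I) * (α * Complex.I)))‖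
          = rad P (z : ℂ).im * |α| := by
      rw [norm_smul, norm_mul, norm_mul, norm_mul, Complex.norm_exp_ofReal_mul_I,
        Complex.norm_I, Circle.norm_coe, Real.norm_of_nonneg (rad_pos P _).le]
      simp
    rw [h9] at h8
    have h10 : 0 ≤ rad P (z : ℂ).im * |α| := mul_nonneg (rad_pos P _).le (abs_nonneg _)
    rw [norm_zero] at h8
    have h11 := norm_nonneg ((WithLp.prodContinuousLinearEquiv 2 ℝ ℂ ℂ).symm
        ((0 : ℂ), (rad P (z : ℂ).im : ℝ) •
          ((w : ℂ) * (Complex.exp ((α * t : ℝ) * Complex.I) * (α * Complex.I)))))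
    have h12 : (0 : ℝ) ^ 2 = 0 := by norm_num
    rw [h12, zero_add] at h8
    exact (sq_eq_sq₀ h11 h10).mp h8
  have h2 : edist (mk P z w) (mk P z (w * Circle.exp α))
      ≤ ENNReal.ofReal (rad P (z : ℂ).im * |α|) := by
    rw [edist_eq]
    refine (riemannianEDist_le_pathELength hγ.contMDiffOn h0 h1 zero_le_one).trans ?_
    rw [pathELength_eq (contMDiff_emb P) (isInduced P) hγ]
    have h3 : ∀ t, ‖deriv (emb P ∘ γ) t‖ₑ = ENNReal.ofReal (rad P (z : ℂ).im * |α|) := by
      intro t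
      rw [← hder t, ofReal_norm]
    simp_rw [h3]
    rw [setLIntegral_const, Real.volume_Icc]
    simp
  rw [edist_dist] at h2
  exact (ENNReal.ofReal_le_ofReal_iff (mul_nonneg (rad_pos P _).le (abs_nonneg _))).mp h2

end WTorus

end Pool.Agent.Work.MP_bc4532_gt
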