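import Mathlib

/-!
# The profile function with infinitely many necks
-/

open Topology Set
open scoped ContDiff

namespace Pool.Agent.Work.MP_bc4532_gt

/-- A smooth function on the line, bounded by `1/2` and Lipschitz with constant `1/2`. -/
structure Profile where
  /-- the function -/
  h : ℝ → ℝ
  smooth : ContDiff ℝ ∞ h
  bound : ∀ t, |h t| ≤ 1 / 2
  lip : ∀ s t, |h s - h t| ≤ |s - t| / 2

/-- There is a profile vanishing at all `1/(n+1)` and not vanishing at all `2/(2n+3)`. -/
theorem exists_profile : ∃ P : Profile, (∀ n : ℕ, P.h (1 / ((n : ℝ) + 1)) = 0) ∧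
    ∀ n : ℕ, P.h (2 / (2 * (n : ℝ) + 3)) ≠ 0 := by
  set U : Set ℝ := ⋃ n : ℕ, Ioo (1 / ((n : ℝ) + 2)) (1 / ((n : ℝ) + 1)) with hU
  have hUo : IsOpen U := isOpen_iUnion fun n => isOpen_Ioo
  have hU01 : U ⊆ Icc 0 1 := by
    intro t ht
    rw [hU, mem_iUnion] at ht
    obtain ⟨n, h1, h2⟩ := ht
    have hn : (0 : ℝ) ≤ n := Nat.cast_nonneg n
    have h3 : (0 : ℝ) < 1 / ((n : ℝ) + 2) := by positivity
    have h4 : 1 / ((n : ℝ) + 1) ≤ 1 := by
      rw [div_le_one (by positivity)]
      linarith
    exact ⟨by linarith, by linarith⟩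
  obtain ⟨f, hf, hfs, hfr⟩ := hUo.exists_contDiff_support_eq (n := ⊤)
  have hcomp : HasCompactSupport f := by
    refine HasCompactSupport.intro (isCompact_Icc (a := (0 : ℝ)) (b := 1)) ?_
    intro x hx
    by_contra hne
    exact hx (hU01 (hf ▸ (Function.mem_support.mpr hne)))
  obtain ⟨C, hC⟩ := ContDiff.lipschitzWith_of_hasCompactSupport hcomp hfs (by simp)
  have hC0 : (0 : ℝ) ≤ C := C.2
  set η : ℝ := 1 / (2 * ((C : ℝ) + 1)) with hη
  have hη0 : 0 < η := by positivity
  have hηC : η * C ≤ 1 / 2 := by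
    rw [hη, div_mul_eq_mul_div, one_mul, div_le_iff₀ (by positivity)]
    linarith
  have hη1 : η ≤ 1 / 2 := by
    rw [hη, div_le_iff₀ (by positivity)]
    linarith
  refine ⟨⟨fun t => η * f t, contDiff_const.mul hfs, ?_, ?_⟩, ?_, ?_⟩
  · intro t
    have h1 := hfr (mem_range_self t)
    rw [abs_mul, abs_of_pos hη0, abs_of_nonneg h1.1]
    nlinarith [h1.1, h1.2]
  · intro s t
    have h1 := hC.dist_le_mul s t
    rw [Real.dist_eq, Real.dist_eq] at h1
    rw [← mul_sub, abs_mul, abs_of_pos hη0]
    have h2 := abs_nonneg (s - t)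
    calc η * |f s - f t| ≤ η * (C * |s - t|) := by gcongr
      _ = (η * C) * |s - t| := by ring
      _ ≤ 1 / 2 * |s - t| := by gcongr
      _ = |s - t| / 2 := by ring
  · intro n
    have : 1 / ((n : ℝ) + 1) ∉ Function.support f := by
      rw [hf, hU, mem_iUnion]
      rintro ⟨m, h1, h2⟩
      rw [one_div_lt_one_div (by positivity) (by positivity)] at h1 h2
      have h3 : n < m + 1 := by exact_mod_cast (by linarith : (n : ℝ) < m + 1)
      have h4 : m < n := by exact_mod_cast (by linarith : (m : ℝ) < n)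
      omega
    simp only [Function.mem_support, not_not] at this
    simp only [this, mul_zero]
  · intro n
    have : 2 / (2 * (n : ℝ) + 3) ∈ Function.support f := by
      rw [hf, hU, mem_iUnion]
      refine ⟨n, ?_, ?_⟩
      · rw [div_lt_div_iff₀ (by positivity) (by positivity)]
        linarith
      · rw [div_lt_div_iff₀ (by positivity) (by positivity)]
        linarith
    simp only [Function.mem_support] at this
    exact mul_ne_zero hη0.ne' this

end Pool.Agent.Work.MP_bc4532_gt
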