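import Mathlib

/-!
# The Riemannian metric induced by an immersion into an inner product space
-/

open Bundle Topology Bornology Set
open scoped Manifold ContDiff

noncomputable section

namespace Pool.Agent.Work.MP_bc4532_gt

variable {E : Type*} [NormedAddCommGroup E] [NormedSpace ℝ E]
  {H : Type*} [TopologicalSpace H] (I : ModelWithCorners ℝ E H)
  {M : Type*} [TopologicalSpace M] [ChartedSpace H M]
  {W : Type*} [NormedAddCommGroup W] [InnerProductSpace ℝ W]

/-- The derivative of `F` at `x`, as a continuous linear map between normed spaces. -/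
def der (F : M → W) (x : M) : E →L[ℝ] W := mfderiv I 𝓘(ℝ, W) F x

/-- The pullback under `F` of the scalar product of `W`. -/
def pullbackForm (F : M → W) (x : M) : TangentSpace I x →L[ℝ] TangentSpace I x →L[ℝ] ℝ :=
  ((innerSL ℝ (E := W)).bilinearComp (der I F x) (der I F x) : E →L[ℝ] E →L[ℝ] ℝ)

theorem pullbackForm_apply (F : M → W) (x : M) (v w : TangentSpace I x) :
    pullbackForm I F x v w = inner ℝ (der I F x v) (der I F x w) := rfl

set_option backward.isDefEq.respectTransparency false in
theorem contMDiff_pullbackForm [IsManifold I ∞ M] {F : M → W} (hF : ContMDiff I 𝓘(ℝ, W) ∞ F) :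
    ContMDiff I (I.prod 𝓘(ℝ, E →L[ℝ] E →L[ℝ] ℝ)) ∞
      (fun x ↦ TotalSpace.mk' (E →L[ℝ] E →L[ℝ] ℝ) x (pullbackForm I F x)) := by
  intro x₀
  rw [contMDiffAt_section]
  have hD : ContMDiffAt I 𝓘(ℝ, E →L[ℝ] W) ∞
      (inTangentCoordinates I 𝓘(ℝ, W) id F (mfderiv I 𝓘(ℝ, W) F) x₀) x₀ :=
    ContMDiffAt.mfderiv_const (hF x₀) le_rfl
  have h2 : ContMDiffAt I 𝓘(ℝ, E →L[ℝ] E →L[ℝ] ℝ) ∞
      (fun x => (((ContinuousLinearMap.compL ℝ E W ℝ).flip
        (inTangentCoordinates I 𝓘(ℝ, W) id F (mfderiv I 𝓘(ℝ, W) F) x₀ x)).comp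
        ((innerSL ℝ (E := W)).comp
          (inTangentCoordinates I 𝓘(ℝ, W) id F (mfderiv I 𝓘(ℝ, W) F) x₀ x)) :
            E →L[ℝ] E →L[ℝ] ℝ)) x₀ := by
    have h3 : ContDiff ℝ ∞ (fun D : E →L[ℝ] W =>
      ((ContinuousLinearMap.compL ℝ E W ℝ).flip D).comp ((innerSL ℝ (E := W)).comp D)) := by
      fun_prop
    exact h3.contMDiff.contMDiffAt.comp x₀ hD
  refine h2.congr_of_eventuallyEq ?_
  filter_upwards [(chart_source_mem_nhds H x₀)] with x hx
  have hx' : x ∈ (trivializationAt (E →L[ℝ] ℝ)
      (fun x : M => TangentSpace I x →L[ℝ] ℝ) x₀).baseSet := by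
    simpa using hx
  ext v w
  simp only [hom_trivializationAt_apply, ContinuousLinearMap.inCoordinates, inTangentCoordinates,
    ContinuousLinearMap.coe_comp, Function.comp_apply,
    Trivialization.continuousLinearMapAt_apply, Trivialization.coe_linearMapAt_of_mem _ hx']
  simp
  rfl

/-- The Riemannian metric induced on `M` by an immersion `F` into an inner product space. -/
def immersionMetric [IsManifold I ∞ M] [FiniteDimensional ℝ E] {F : M → W}
    (hF : ContMDiff I 𝓘(ℝ, W) ∞ F) (hinj : ∀ x, Function.Injective (der I F x)) :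
    ContMDiffRiemannianMetric I ∞ E (fun x : M => TangentSpace I x) where
  inner := pullbackForm I F
  symm x v w := by
    rw [pullbackForm_apply, pullbackForm_apply, real_inner_comm]
  pos x v hv := by
    rw [pullbackForm_apply]
    apply real_inner_self_pos.2
    intro h
    apply hv
    apply hinj x
    rw [h]
    exact (map_zero (der I F x)).symm
  isVonNBounded x := by
    change IsVonNBounded ℝ {v : E | inner ℝ (der I F x v) (der I F x v) < (1 : ℝ)}
    obtain ⟨K, hK, hanti⟩ := (der I F x : E →ₗ[ℝ] W).exists_antilipschitzWith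
      (LinearMap.ker_eq_bot.mpr (hinj x))
    refine (NormedSpace.isVonNBounded_ball ℝ E K).subset ?_
    intro v hv
    simp only [mem_ofPred_eq] at hv
    rw [mem_ball_zero_iff]
    have h1 : ‖der I F x v‖ < 1 := by
      rw [real_inner_self_eq_norm_sq] at hv
      by_contra hcon
      push Not at hcon
      nlinarith [norm_nonneg (der I F x v)]
    have h2 : ‖v‖ ≤ K * ‖der I F x v‖ := by
      have := hanti.le_mul_dist v 0
      simpa using this
    have hK' : (0 : ℝ) < K := hK
    nlinarith
  contMDiff := contMDiff_pullbackForm I hF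

end Pool.Agent.Work.MP_bc4532_gt
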