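import Pool.Agent.Work.MP_bc4532_gt.RiemLength
import Pool.Agent.Work.MP_bc4532_gt.Profile

/-!
# The torus with necks
-/

open Bundle Topology Bornology Set MeasureTheory Manifold
open scoped Manifold ContDiff ENNReal

noncomputable section

namespace Pool.Agent.Work.MP_bc4532_gt

/-- The underlying manifold of the necked torus: the product of two circles. -/
def WTorus (_P : Profile) : Type := Circle × Circle

variable (P : Profile)

/-- The model space of the torus. -/
abbrev TE : Type := EuclideanSpace ℝ (Fin 1) × EuclideanSpace ℝ (Fin 1)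

/-- The model with corners of the torus. -/
abbrev TI : ModelWithCorners ℝ TE (ModelProd (EuclideanSpace ℝ (Fin 1)) (EuclideanSpace ℝ (Fin 1))) :=
  (𝓡 1).prod (𝓡 1)

namespace WTorus

instance : TopologicalSpace (WTorus P) := inferInstanceAs (TopologicalSpace (Circle × Circle))

instance : ChartedSpace (ModelProd (EuclideanSpace ℝ (Fin 1)) (EuclideanSpace ℝ (Fin 1)))
    (WTorus P) := inferInstanceAs (ChartedSpace _ (Circle × Circle))

instance : IsManifold TI ∞ (WTorus P) := inferInstanceAs (IsManifold TI ∞ (Circle × Circle))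

instance : CompactSpace (WTorus P) := inferInstanceAs (CompactSpace (Circle × Circle))

instance : ConnectedSpace (WTorus P) := inferInstanceAs (ConnectedSpace (Circle × Circle))

instance : T3Space (WTorus P) := inferInstanceAs (T3Space (Circle × Circle))

/-- The radius function `√(1 - h²)`. -/
def rad (t : ℝ) : ℝ := √(1 - P.h t ^ 2)

theorem one_sub_pos (t : ℝ) : 3 / 4 ≤ 1 - P.h t ^ 2 := by
  have h1 := P.bound t
  rw [abs_le] at h1
  nlinarith [h1.1, h1.2]

theorem rad_pos (t : ℝ) : 0 < rad P t := Real.sqrt_pos.mpr (by linarith [one_sub_pos P t])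

theorem rad_sq (t : ℝ) : rad P t ^ 2 = 1 - P.h t ^ 2 :=
  Real.sq_sqrt (by linarith [one_sub_pos P t])

theorem contDiff_rad : ContDiff ℝ ∞ (rad P) := by
  refine ContDiff.sqrt ?_ ?_
  · exact contDiff_const.sub (P.smooth.pow 2)
  · intro t
    have := one_sub_pos P t
    linarith

/-- First coordinate, as a complex number. -/
def zc (p : WTorus P) : ℂ := (p.1 : ℂ)

/-- Second coordinate, as a complex number. -/
def tc (p : WTorus P) : ℂ := (p.2 : ℂ)

theorem contMDiff_circle_coe {m : ℕ∞ω} :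
    ContMDiff (𝓡 1) 𝓘(ℝ, ℂ) m (fun w : Circle => (w : ℂ)) := by
  have _ : Fact (Module.finrank ℝ ℂ = 1 + 1) := ⟨Complex.finrank_real_complex⟩
  exact contMDiff_coe_sphere (E := ℂ)

theorem contMDiff_zc {m : ℕ∞ω} : ContMDiff TI 𝓘(ℝ, ℂ) m (zc P) :=
  contMDiff_circle_coe.comp (contMDiff_fst (M := Circle) (N := Circle))

theorem contMDiff_tc {m : ℕ∞ω} : ContMDiff TI 𝓘(ℝ, ℂ) m (tc P) :=
  contMDiff_circle_coe.comp (contMDiff_snd (M := Circle) (N := Circle))

/-- The ambient Euclidean four-space. -/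
abbrev W4 : Type := WithLp 2 (ℂ × ℂ)

/-- The map of pairs of complex numbers underlying the embedding. -/
def emb2 (q : ℂ × ℂ) : W4 := WithLp.toLp 2 (q.1, (rad P q.1.im : ℝ) • q.2)

theorem contDiff_emb2 : ContDiff ℝ ∞ (emb2 P) := by
  have h1 : ContDiff ℝ ∞ fun q : ℂ × ℂ => (q.1, (rad P q.1.im : ℝ) • q.2) := by
    have h0 : ContDiff ℝ ∞ (fun q : ℂ × ℂ => q.1.im) :=
      (Complex.imCLM.comp (ContinuousLinearMap.fst ℝ ℂ ℂ)).contDiff
    exact contDiff_fst.prodMk (((contDiff_rad P).comp h0).smul contDiff_snd)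
  exact (WithLp.prodContinuousLinearEquiv 2 ℝ ℂ ℂ).symm.contDiff.comp h1

/-- The embedding of the torus in Euclidean four-space. -/
def emb (p : WTorus P) : W4 := emb2 P (zc P p, tc P p)

theorem contMDiff_emb : ContMDiff TI 𝓘(ℝ, W4) ∞ (emb P) :=
  (contDiff_emb2 P).contMDiff.comp ((contMDiff_zc P).prodMk_space (contMDiff_tc P))

/-- Left inverse data: the second coordinate recovered from the embedding. -/
def rec2 (w : W4) : ℂ := (rad P w.fst.im)⁻¹ • w.snd

theorem contDiff_rec2 : ContDiff ℝ ∞ (rec2 P) := by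
  have h0 : ContDiff ℝ ∞ (fun q : ℂ × ℂ => q.1.im) :=
    (Complex.imCLM.comp (ContinuousLinearMap.fst ℝ ℂ ℂ)).contDiff
  have h1 : ContDiff ℝ ∞ fun q : ℂ × ℂ => (rad P q.1.im)⁻¹ • q.2 :=
    (((contDiff_rad P).comp h0).inv fun q => (rad_pos P _).ne').smul contDiff_snd
  exact h1.comp (WithLp.prodContinuousLinearEquiv 2 ℝ ℂ ℂ).contDiff

theorem rec2_emb (p : WTorus P) : rec2 P (emb P p) = tc P p := by
  have h1 : rec2 P (emb P p) = (rad P (zc P p).im)⁻¹ • ((rad P (zc P p).im : ℝ) • tc P p) := rfl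
  rw [h1, smul_smul, inv_mul_cancel₀ (rad_pos P _).ne', one_smul]

theorem fst_emb (p : WTorus P) : (emb P p).fst = zc P p := rfl

theorem der_comp {G : W4 → ℂ} (hG : ContDiff ℝ ∞ G) (p : WTorus P) (v : TE) :
    der TI (G ∘ emb P) p v = fderiv ℝ G (emb P p) (der TI (emb P) p v) := by
  have h1 : mfderiv TI 𝓘(ℝ, ℂ) (G ∘ emb P) p
      = (mfderiv 𝓘(ℝ, W4) 𝓘(ℝ, ℂ) G (emb P p)).comp (mfderiv TI 𝓘(ℝ, W4) (emb P) p) :=
    mfderiv_comp p (hG.contMDiff.mdifferentiable (by simp) _)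
      ((contMDiff_emb P).mdifferentiable (by simp) _)
  have h2 : der TI (G ∘ emb P) p v
      = (mfderiv 𝓘(ℝ, W4) 𝓘(ℝ, ℂ) G (emb P p)) ((mfderiv TI 𝓘(ℝ, W4) (emb P) p) v) := by
    unfold der
    rw [h1]
    rfl
  rw [h2, mfderiv_eq_fderiv]
  rfl

theorem der_circle_injective (w : Circle) :
    Function.Injective (der (𝓡 1) (fun w : Circle => (w : ℂ)) w) := by
  have _ : Fact (Module.finrank ℝ ℂ = 1 + 1) := ⟨Complex.finrank_real_complex⟩
  exact injective_mvfderiv_subtypeVal_sphere (E := ℂ) w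

theorem der_zc (p : WTorus P) (v : TE) :
    der TI (zc P) p v = der (𝓡 1) (fun w : Circle => (w : ℂ)) p.1 v.1 := by
  have h1 : mfderiv TI 𝓘(ℝ, ℂ) (zc P) p
      = (mfderiv (𝓡 1) 𝓘(ℝ, ℂ) (fun w : Circle => (w : ℂ)) p.1).comp
        (mfderiv TI (𝓡 1) (fun q : Circle × Circle => q.1) p) :=
    mfderiv_comp (I' := 𝓡 1) p (contMDiff_circle_coe.mdifferentiable (n := ∞) (by simp) _)
      (mdifferentiableAt_fst)
  unfold der
  rw [h1]
  have h2 : mfderiv TI (𝓡 1) (fun q : Circle × Circle => q.1) p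
      = ContinuousLinearMap.fst ℝ (EuclideanSpace ℝ (Fin 1)) (EuclideanSpace ℝ (Fin 1)) :=
    mfderiv_fst
  rw [h2]
  rfl

theorem der_tc (p : WTorus P) (v : TE) :
    der TI (tc P) p v = der (𝓡 1) (fun w : Circle => (w : ℂ)) p.2 v.2 := by
  have h1 : mfderiv TI 𝓘(ℝ, ℂ) (tc P) p
      = (mfderiv (𝓡 1) 𝓘(ℝ, ℂ) (fun w : Circle => (w : ℂ)) p.2).comp
        (mfderiv TI (𝓡 1) (fun q : Circle × Circle => q.2) p) :=
    mfderiv_comp (I' := 𝓡 1) p (contMDiff_circle_coe.mdifferentiable (n := ∞) (by simp) _)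
      (mdifferentiableAt_snd)
  unfold der
  rw [h1]
  have h2 : mfderiv TI (𝓡 1) (fun q : Circle × Circle => q.2) p
      = ContinuousLinearMap.snd ℝ (EuclideanSpace ℝ (Fin 1)) (EuclideanSpace ℝ (Fin 1)) :=
    mfderiv_snd
  rw [h2]
  rfl

theorem der_emb_injective (p : WTorus P) : Function.Injective (der TI (emb P) p) := by
  rw [injective_iff_map_eq_zero]
  intro v hv
  have hfst : ContDiff ℝ ∞ (fun w : W4 => w.fst) :=
    contDiff_fst.comp (WithLp.prodContinuousLinearEquiv 2 ℝ ℂ ℂ).contDiff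
  have h1 : der TI (zc P) p v = 0 := by
    have := der_comp P hfst p v
    rw [hv, map_zero] at this
    exact this
  have h2 : der TI (tc P) p v = 0 := by
    have h3 := der_comp P (contDiff_rec2 P) p v
    rw [hv, map_zero] at h3
    have h4 : (rec2 P ∘ emb P) = tc P := by
      funext q; exact rec2_emb P q
    rwa [h4] at h3
  rw [der_zc] at h1
  rw [der_tc] at h2
  have h3 : v.1 = 0 := der_circle_injective p.1 (by rw [h1, map_zero])
  have h4 : v.2 = 0 := der_circle_injective p.2 (by rw [h2, map_zero])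
  exact Prod.ext h3 h4

end WTorus

end Pool.Agent.Work.MP_bc4532_gt
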