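import Pool.Agent.Work.MP_bc4532_gt.Torus

/-!
# The Riemannian distance of the necked torus
-/

open Bundle Topology Bornology Set MeasureTheory Manifold
open scoped Manifold ContDiff ENNReal

noncomputable section

namespace Pool.Agent.Work.MP_bc4532_gt

namespace WTorus

variable (P : Profile)

/-- The smooth Riemannian metric induced on the torus by the embedding in Euclidean space. -/
def riem : ContMDiffRiemannianMetric TI ∞ TE (fun p : WTorus P => TangentSpace TI p) :=
  immersionMetric TI (contMDiff_emb P) (der_emb_injective P)

instance : RiemannianBundle (fun p : WTorus P => TangentSpace TI p) :=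
  ⟨(riem P).toRiemannianMetric⟩

instance : IsContMDiffRiemannianBundle TI ∞ TE (fun p : WTorus P => TangentSpace TI p) :=
  inferInstance

instance : IsContinuousRiemannianBundle TE (fun p : WTorus P => TangentSpace TI p) :=
  ⟨⟨(riem P).inner, (riem P).contMDiff.continuous, fun _ _ _ => rfl⟩⟩

/-- The extended metric space structure. -/
abbrev emetric : EMetricSpace (WTorus P) := EMetricSpace.ofRiemannianMetric TI (WTorus P)

end WTorus

/-- Distances are finite in a preconnected extended pseudometric space. -/
theorem edist_ne_top_of_preconnected {X : Type*} [PseudoEMetricSpace X] [PreconnectedSpace X]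
    (x y : X) : edist x y ≠ ⊤ := by
  have hopen : IsOpen {z : X | edist z x < ⊤} := Metric.isOpen_eball
  have hclosed : IsClosed {z : X | edist z x < ⊤} := by
    rw [← isOpen_compl_iff, EMetric.isOpen_iff]
    intro z hz
    refine ⟨1, one_pos, ?_⟩
    intro w hw hw2
    apply hz
    have h1 : edist w z < 1 := hw
    have h2 : edist w x < ⊤ := hw2
    calc edist z x ≤ edist z w + edist w x := edist_triangle _ _ _
      _ < ⊤ := by
        rw [edist_comm z w]
        exact ENNReal.add_lt_top.mpr ⟨h1.trans ENNReal.one_lt_top, h2⟩
  have hclopen : IsClopen {z : X | edist z x < ⊤} := ⟨hclosed, hopen⟩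
  have huniv := hclopen.eq_univ ⟨x, by simp⟩
  have : y ∈ {z : X | edist z x < ⊤} := by rw [huniv]; trivial
  rw [edist_comm]
  exact (this : edist y x < ⊤).ne

namespace WTorus

variable (P : Profile)

instance : MetricSpace (WTorus P) :=
  letI := emetric P
  EMetricSpace.toMetricSpace (fun x y => edist_ne_top_of_preconnected x y)

instance : IsRiemannianManifold TI (WTorus P) := ⟨fun _ _ => rfl⟩

theorem edist_eq (x y : WTorus P) : edist x y = riemannianEDist TI x y := rfl

theorem isInduced : IsInduced TI (emb P) := by
  intro x v
  have h1 : ‖v‖ ^ 2 = ‖der TI (emb P) x v‖ ^ 2 := by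
    rw [← real_inner_self_eq_norm_sq, ← real_inner_self_eq_norm_sq]
    rfl
  have h2 := norm_nonneg v
  have h3 := norm_nonneg (der TI (emb P) x v)
  exact (sq_eq_sq₀ h2 h3).mp h1

end WTorus

end Pool.Agent.Work.MP_bc4532_gt
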