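import Pool.Agent.Work.MP_bc4532_gt.Criterion

/-!
# Winding triangles and necks
-/

open Set Topology

namespace Pool.Agent.Work.MP_bc4532_gt

/-- The metric input: a metric space with a circle-valued map `θ`, a map `z` to a base `B`, and
an open set `U` of the base (the union of the necks). -/
structure NeckSetup {M B : Type*} [MetricSpace M] [TopologicalSpace B] (θ : M → Circle)
    (z : M → B) (U : Set B) (r : ℝ) : Prop where
  contθ : Continuous θ
  contz : Continuous z
  path : ∀ p q, dist p q < r → ∃ γ : ℝ → M, Continuous γ ∧ γ 0 = p ∧ γ 1 = q ∧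
    ∀ t ∈ Icc (0 : ℝ) 1, dist p (γ t) + dist (γ t) q < r
  opp : ∀ p y, (θ y : ℂ) = -(θ p : ℂ) → r ≤ dist p y
  wall : ∀ x y, z x ∉ U → (θ y : ℂ) = -(θ x : ℂ) → 3 * r / 2 ≤ dist x y

section

variable {M : Type*} (θ : M → Circle)

/-- The signed angle from `p` to `q`, in `(-π, π]`. -/
noncomputable def ang (p q : M) : ℝ := Complex.arg ((θ q / θ p : Circle) : ℂ)

theorem continuous_circle_coe : Continuous fun w : Circle => (w : ℂ) := continuous_subtype_val

theorem circle_arg_eq_pi_iff (w : Circle) : Complex.arg (w : ℂ) = Real.pi ↔ (w : ℂ) = -1 := by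
  constructor
  · intro h
    have h1 := Circle.exp_arg w
    rw [h] at h1
    rw [← h1]
    simp
  · intro h
    rw [h]
    exact Complex.arg_neg_one

theorem div_eq_neg_one_iff (p q : M) :
    ((θ q / θ p : Circle) : ℂ) = -1 ↔ (θ q : ℂ) = -(θ p : ℂ) := by
  rw [Circle.coe_div, div_eq_iff (Circle.coe_ne_zero _)]
  simp

theorem ang_lt_pi {p q : M} (h : (θ q : ℂ) ≠ -(θ p : ℂ)) : ang θ p q < Real.pi := by
  refine lt_of_le_of_ne (Complex.arg_le_pi _) ?_
  intro h1
  exact h ((div_eq_neg_one_iff θ p q).mp ((circle_arg_eq_pi_iff _).mp h1))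

theorem neg_pi_lt_ang (p q : M) : -Real.pi < ang θ p q := Complex.neg_pi_lt_arg _

theorem ang_self (p : M) : ang θ p p = 0 := by simp [ang]

theorem ang_symm {p q : M} (h : (θ q : ℂ) ≠ -(θ p : ℂ)) : ang θ q p = -ang θ p q := by
  unfold ang
  have h1 : (θ p / θ q : Circle) = (θ q / θ p : Circle)⁻¹ := by
    rw [inv_div]
  rw [h1, Circle.coe_inv, Complex.arg_inv, if_neg]
  intro h2
  exact h ((div_eq_neg_one_iff θ p q).mp ((circle_arg_eq_pi_iff _).mp h2))

theorem exp_ang (p q : M) : Circle.exp (ang θ p q) = θ q / θ p := Circle.exp_arg _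

/-- `θ q = exp(i ang p q) θ p`. -/
theorem coe_eq_exp_ang_mul (p q : M) :
    θ q = Circle.exp (ang θ p q) * θ p := by
  rw [exp_ang, div_mul_cancel]

end

namespace NeckSetup

variable {M B : Type*} [MetricSpace M] [TopologicalSpace B] {θ : M → Circle}
  {z : M → B} {U : Set B} {r : ℝ}

theorem ne_neg (S : NeckSetup θ z U r) {p q : M} (h : dist p q < r) :
    (θ q : ℂ) ≠ -(θ p : ℂ) := fun h1 => absurd (S.opp p q h1) (not_le.mpr h)

/-- Along a short path avoiding the angle opposite to `x`, angles measured from `x` change by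
the angle between the endpoints. -/
theorem ang_sub (S : NeckSetup θ z U r) {p q x : M} {γ : ℝ → M} (hγ : Continuous γ)
    (h0 : γ 0 = p) (h1 : γ 1 = q)
    (hd : ∀ t ∈ Icc (0 : ℝ) 1, dist p (γ t) < r)
    (hx : ∀ t ∈ Icc (0 : ℝ) 1, (θ (γ t) : ℂ) ≠ -(θ x : ℂ)) :
    ang θ x q - ang θ x p = ang θ p q := by
  -- the continuous angle difference
  have hcont : ContinuousOn (fun t => ang θ x (γ t) - ang θ x (γ 0)) (Icc 0 1) := by
    refine ContinuousOn.sub ?_ continuousOn_const
    intro t ht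
    have h2 : ((θ (γ t) / θ x : Circle) : ℂ) ∈ Complex.slitPlane := by
      rw [Complex.mem_slitPlane_iff_arg]
      refine ⟨?_, Circle.coe_ne_zero _⟩
      intro h3
      exact hx t ht ((div_eq_neg_one_iff θ x (γ t)).mp ((circle_arg_eq_pi_iff _).mp h3))
    have h3 : ContinuousAt (fun t => ((θ (γ t) / θ x : Circle) : ℂ)) t := by
      have : Continuous fun t => ((θ (γ t) / θ x : Circle) : ℂ) := by
        have h4 := S.contθ.comp hγ
        exact continuous_circle_coe.comp (h4.div_const (θ x))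
      exact this.continuousAt
    exact (ContinuousAt.comp (f := fun t => ((θ (γ t) / θ x : Circle) : ℂ))
      (Complex.continuousAt_arg h2) h3).continuousWithinAt
  -- it never reaches absolute value `π`
  have hexp : ∀ t, Circle.exp (ang θ x (γ t) - ang θ x (γ 0)) = θ (γ t) / θ p := by
    intro t
    rw [Circle.exp_sub, exp_ang, exp_ang, h0]
    rw [div_div_div_cancel_right]
  have hne : ∀ t ∈ Icc (0 : ℝ) 1, |ang θ x (γ t) - ang θ x (γ 0)| ≠ Real.pi := by
    intro t ht habs
    have h2 : Circle.exp (ang θ x (γ t) - ang θ x (γ 0)) = Circle.exp Real.pi := by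
      rcases abs_eq Real.pi_pos.le |>.mp habs with h | h
      · rw [h]
      · rw [h]
        apply Subtype.ext
        rw [Circle.coe_exp, Circle.coe_exp]
        push_cast
        rw [neg_mul, Complex.exp_neg, Complex.exp_pi_mul_I]
        norm_num
    rw [hexp t] at h2
    have h3 : ((θ (γ t) / θ p : Circle) : ℂ) = -1 := by
      rw [h2, Circle.coe_exp, Complex.exp_pi_mul_I]
    have h4 := (div_eq_neg_one_iff θ p (γ t)).mp h3
    exact absurd (S.opp p (γ t) h4) (not_le.mpr (hd t ht))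
  have hlt : |ang θ x (γ 1) - ang θ x (γ 0)| < Real.pi := by
    by_contra hcon
    push Not at hcon
    have h2 : ContinuousOn (fun t => |ang θ x (γ t) - ang θ x (γ 0)|) (Icc 0 1) := hcont.abs
    have h3 : Real.pi ∈ (fun t => |ang θ x (γ t) - ang θ x (γ 0)|) '' Icc 0 1 := by
      apply intermediate_value_Icc zero_le_one h2
      refine ⟨?_, hcon⟩
      simp only [sub_self, abs_zero]
      exact Real.pi_pos.le
    obtain ⟨t, ht, h4⟩ := h3
    exact hne t ht h4
  have h2 := hexp 1
  rw [h1, h0] at h2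
  rw [h1, h0] at hlt
  unfold ang at *
  rw [← h2]
  rw [abs_lt] at hlt
  rw [Circle.arg_exp hlt.1 hlt.2.le]

/-- **Winding triangles avoid the walls.** -/
theorem winding_leg (S : NeckSetup θ z U r) {p q s : M} (hpq : dist p q < r) (hqs : dist q s < r)
    (hsp : dist s p < r) (hw : ang θ p q + ang θ q s + ang θ s p ≠ 0) :
    z p ∈ U ∧ connectedComponentIn U (z p) = connectedComponentIn U (z q) := by
  obtain ⟨γ₁, c₁, a₁, b₁, d₁⟩ := S.path p q hpq
  obtain ⟨γ₂, c₂, a₂, b₂, d₂⟩ := S.path q s hqs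
  obtain ⟨γ₃, c₃, a₃, b₃, d₃⟩ := S.path s p hsp
  -- no wall point on the first leg
  have key : ∀ t ∈ Icc (0 : ℝ) 1, z (γ₁ t) ∈ U := by
    intro t ht
    by_contra hwall
    set x := γ₁ t with hx
    have hdx := d₁ t ht
    -- no point of the loop is opposite to `x`
    have e₁ : ∀ u ∈ Icc (0 : ℝ) 1, (θ (γ₁ u) : ℂ) ≠ -(θ x : ℂ) := by
      intro u hu hopp
      have h1 := S.wall x (γ₁ u) hwall hopp
      have h2 := d₁ u hu
      have h3 := dist_triangle x p (γ₁ u)
      have h4 := dist_triangle x q (γ₁ u)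
      rw [dist_comm x p] at h3
      rw [dist_comm q (γ₁ u)] at h4
      have h5 := dist_nonneg (x := p) (y := x)
      have h6 := dist_nonneg (x := x) (y := q)
      linarith
    have e₂ : ∀ u ∈ Icc (0 : ℝ) 1, (θ (γ₂ u) : ℂ) ≠ -(θ x : ℂ) := by
      intro u hu hopp
      have h1 := S.wall x (γ₂ u) hwall hopp
      have h2 := d₂ u hu
      have h3 := dist_triangle x q (γ₂ u)
      have h4 := dist_triangle4 x p s (γ₂ u)
      rw [dist_comm x p, dist_comm p s, dist_comm s (γ₂ u)] at h4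
      linarith
    have e₃ : ∀ u ∈ Icc (0 : ℝ) 1, (θ (γ₃ u) : ℂ) ≠ -(θ x : ℂ) := by
      intro u hu hopp
      have h1 := S.wall x (γ₃ u) hwall hopp
      have h2 := d₃ u hu
      have h3 := dist_triangle x p (γ₃ u)
      have h4 := dist_triangle4 x q s (γ₃ u)
      rw [dist_comm x p, dist_comm p (γ₃ u)] at h3
      linarith
    have f₁ := S.ang_sub c₁ a₁ b₁ (fun u hu => lt_of_le_of_lt
      (le_add_of_nonneg_right dist_nonneg) (d₁ u hu)) e₁
    have f₂ := S.ang_sub c₂ a₂ b₂ (fun u hu => lt_of_le_of_lt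
      (le_add_of_nonneg_right dist_nonneg) (d₂ u hu)) e₂
    have f₃ := S.ang_sub c₃ a₃ b₃ (fun u hu => lt_of_le_of_lt
      (le_add_of_nonneg_right dist_nonneg) (d₃ u hu)) e₃
    apply hw
    rw [← f₁, ← f₂, ← f₃]
    ring
  refine ⟨by simpa [a₁] using key 0 ⟨le_rfl, zero_le_one⟩, ?_⟩
  apply connectedComponentIn_eq
  have hpre : IsPreconnected ((fun t => z (γ₁ t)) '' Icc (0 : ℝ) 1) :=
    isPreconnected_Icc.image _ ((S.contz.comp c₁).continuousOn)
  have hsub : (fun t => z (γ₁ t)) '' Icc (0 : ℝ) 1 ⊆ U := by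
    rintro _ ⟨t, ht, rfl⟩
    exact key t ht
  have hp : z p ∈ (fun t => z (γ₁ t)) '' Icc (0 : ℝ) 1 :=
    ⟨0, ⟨le_rfl, zero_le_one⟩, by simp [a₁]⟩
  exact hpre.subset_connectedComponentIn hp hsub ⟨1, ⟨zero_le_one, le_rfl⟩, by simp [b₁]⟩

/-- All three vertices of a winding triangle lie over the same neck. -/
theorem winding_triple (S : NeckSetup θ z U r) {p q s : M} (hpq : dist p q < r)
    (hqs : dist q s < r) (hsp : dist s p < r)
    (hw : ang θ p q + ang θ q s + ang θ s p ≠ 0) :
    z p ∈ U ∧ connectedComponentIn U (z p) = connectedComponentIn U (z q) ∧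
      connectedComponentIn U (z p) = connectedComponentIn U (z s) := by
  obtain ⟨h1, h2⟩ := S.winding_leg hpq hqs hsp hw
  obtain ⟨h3, h4⟩ := S.winding_leg hqs hsp hpq (by
    intro h; apply hw; rw [← h]; ring)
  exact ⟨h1, h2, h2.trans h4⟩

end NeckSetup

end Pool.Agent.Work.MP_bc4532_gt
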